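import Pool.Agent.Hhelper23.CV.CVThm

set_option autoImplicit false
set_option linter.unusedSectionVars false

open Filter Topology NormedSpace

namespace Pool.Agent.Hhelper23.LE

section
variable {𝔸 : Type} [NormedCommRing 𝔸] [NormedAlgebra ℂ 𝔸] [CompleteSpace 𝔸]

lemma exp_add' (x y : 𝔸) : exp (x + y) = exp x * exp y := by
  let _ : NormedAlgebra ℚ 𝔸 := NormedAlgebra.restrictScalars ℚ ℂ 𝔸
  exact exp_add_of_commute (Commute.all _ _)

/-- multiplication by a fixed element -/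
noncomputable abbrev mulBy (x : 𝔸) : 𝔸 →L[ℂ] 𝔸 := ContinuousLinearMap.mul ℂ 𝔸 x

lemma hasFDerivAt_expc (c : ℂ) (g : 𝔸) :
    HasFDerivAt (𝕜 := ℂ) (fun g : 𝔸 => exp (c • g)) (mulBy (c • exp (c • g))) g := by
  have h1 : HasFDerivAt (𝕜 := ℂ) (fun g : 𝔸 => c • g) (c • ContinuousLinearMap.id ℂ 𝔸) g :=
    (hasFDerivAt_id g).const_smul c
  have h2 := (hasFDerivAt_exp (𝕂 := ℂ) (x := c • g)).comp g h1
  refine h2.congr_fderiv ?_
  ext φ
  simp

lemma contDiff_expc (c : ℂ) : ContDiff ℂ 1 (fun g : 𝔸 => exp (c • g)) := by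
  have h1 : ContDiff ℂ 1 (exp : 𝔸 → 𝔸) := contDiff_iff_contDiffAt.2 fun x =>
    (exp_analytic (𝕂 := ℂ) x).contDiffAt
  exact h1.comp (contDiff_const_smul c)

variable (T : 𝔸 →L[ℂ] 𝔸) (a : ℂ)

/-- the nonlinear map `exp (a g) - T (exp g)` -/
noncomputable def FF (g : 𝔸) : 𝔸 := exp (a • g) - T (exp g)

lemma hasFDerivAt_FF (g : 𝔸) : HasFDerivAt (𝕜 := ℂ) (FF T a)
    (mulBy (a • exp (a • g)) - T.comp (mulBy (exp g))) g := by
  have h1 := hasFDerivAt_expc a g
  have h2 := hasFDerivAt_expc (1:ℂ) g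
  simp only [one_smul] at h2
  exact h1.sub (T.hasFDerivAt.comp g h2)

lemma contDiff_FF : ContDiff ℂ 1 (FF T a) := by
  have h1 := contDiff_expc (𝔸 := 𝔸) a
  have h2 := contDiff_expc (𝔸 := 𝔸) (1:ℂ)
  simp only [one_smul] at h2
  exact h1.sub (T.contDiff.comp h2)

/-- the energy functional -/
noncomputable def Psi (τ : 𝔸 →L[ℂ] ℂ) (g : 𝔸) : ℂ :=
  (1 / (a + 1)) * τ (exp ((a + 1) • g)) - (1 / 2) * τ (exp g * T (exp g))

lemma hasFDerivAt_Psi (τ : 𝔸 →L[ℂ] ℂ) (ha : a + 1 ≠ 0)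
    (hsym : ∀ x y : 𝔸, τ (T x * y) = τ (x * T y)) (g : 𝔸) :
    HasFDerivAt (𝕜 := ℂ) (Psi T a τ) (τ.comp (mulBy (exp g * FF T a g))) g := by
  have h1 := hasFDerivAt_expc (a + 1) g
  have h2 := hasFDerivAt_expc (1:ℂ) g
  simp only [one_smul] at h2
  have h3 : HasFDerivAt (𝕜 := ℂ) (fun g => T (exp g)) (T.comp (mulBy (exp g))) g :=
    T.hasFDerivAt.comp g h2
  have h4 := h2.mul h3
  have h5 := (τ.hasFDerivAt (x := exp ((a + 1) • g))).comp g h1
  have h6 := (τ.hasFDerivAt (x := exp g * T (exp g))).comp g h4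
  have h7 := (h5.const_mul (1 / (a + 1))).sub (h6.const_mul (1 / 2))
  refine h7.congr_fderiv ?_
  ext φ
  have e1 : exp ((a + 1) • g) = exp (a • g) * exp g := by
    rw [add_smul, one_smul, exp_add']
  have e2 : τ (exp g * T (exp g * φ)) = τ (exp g * φ * T (exp g)) := by
    rw [← hsym, mul_comm (T (exp g))]
  simp only [sub_apply, smul_apply,
    ContinuousLinearMap.comp_apply, ContinuousLinearMap.mul_apply', add_apply,
    smul_eq_mul, map_add, map_smul, FF]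
  have e3 : τ (T (exp g) * (exp g * φ)) = τ (exp g * φ * T (exp g)) := by
    rw [mul_comm]
  rw [e2, e3, e1]
  have e4 : exp g * (exp (a • g) - T (exp g)) * φ =
      exp (a • g) * exp g * φ - exp g * φ * T (exp g) := by ring
  rw [e4, map_sub]
  field_simp
  ring

/-- **Abstract Lyapunov–Schmidt / critical value lemma.** -/
theorem AL (hT : IsCompactOperator T) (ha0 : a ≠ 0) (ha1 : a ≠ 1) (ha2 : a + 1 ≠ 0)
    (τ : 𝔸 →L[ℂ] ℂ) (hsym : ∀ x y : 𝔸, τ (T x * y) = τ (x * T y)) (hT1 : T 1 = 1)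
    (hK : ∀ k y : 𝔸, T k = a • k → k = a • y - T y → k = 0)
    {ι : Type} (𝒰 : Ultrafilter ι) (g : ι → 𝔸) (hg : Tendsto g 𝒰 (𝓝 0))
    (heq : ∀ᶠ j in (𝒰 : Filter ι), exp (a • g j) = T (exp (g j))) :
    ∀ᶠ j in (𝒰 : Filter ι), τ (exp ((a + 1) • g j)) = τ 1 := by
  -- the kernel
  set L : 𝔸 →L[ℂ] 𝔸 := a • ContinuousLinearMap.id ℂ 𝔸 - T with hL
  set K : Submodule ℂ 𝔸 := LinearMap.ker (L : 𝔸 →ₗ[ℂ] 𝔸) with hKdef
  have hKmem : ∀ k : 𝔸, k ∈ K ↔ T k = a • k := by
    intro k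
    rw [hKdef, LinearMap.mem_ker]
    show a • k - T k = 0 ↔ _
    rw [sub_eq_zero, eq_comm]
  have hKclosed : IsClosed (K : Set 𝔸) := L.isClosed_ker
  have : CompleteSpace K := hKclosed.completeSpace_coe
  have hfin : FiniteDimensional ℂ K := by
    apply FiniteDimensional.of_isCompactOperator_id (𝕜 := ℂ)
    have h1 : IsCompactOperator (fun k : K => T (k : 𝔸)) := hT.comp_clm K.subtypeL
    have h2 : ∀ k : K, T (k : 𝔸) ∈ K := fun k => by
      rw [(hKmem _).1 k.2]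
      exact K.smul_mem _ k.2
    let g0 : K → K := fun k => ⟨T (k : 𝔸), h2 k⟩
    have h3 : IsCompactOperator g0 := h1.codRestrict h2 hKclosed
    have h4 : IsCompactOperator (a⁻¹ • g0) := h3.smul a⁻¹
    have h5 : (id : K → K) = a⁻¹ • g0 := by
      funext k
      apply Subtype.ext
      show (k : 𝔸) = a⁻¹ • T (k : 𝔸)
      rw [(hKmem _).1 k.2, smul_smul, inv_mul_cancel₀ ha0, one_smul]
    rw [h5]
    exact h4
  obtain ⟨P, hP⟩ := Submodule.ClosedComplemented.of_finiteDimensional (𝕜 := ℂ) K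
  set Pc : 𝔸 →L[ℂ] 𝔸 := K.subtypeL.comp P with hPc
  have hPcK : ∀ x, Pc x ∈ K := fun x => (P x).2
  have hPck : ∀ k ∈ K, Pc k = k := fun k hk => by
    show ((P k : K) : 𝔸) = k
    rw [hP ⟨k, hk⟩]
  -- invertibility of L + P
  set L0 : 𝔸 →L[ℂ] 𝔸 := L + Pc with hL0
  have hcomp : IsCompactOperator (T - Pc) := by
    have h1 : IsCompactOperator (Pc : 𝔸 → 𝔸) := by
      have : IsCompactOperator (P : 𝔸 → K) := by
        have : ProperSpace K := FiniteDimensional.proper ℂ K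
        exact isCompactOperator_of_locallyCompactSpace_dom P
      exact this.clm_comp K.subtypeL
    exact hT.sub h1
  have hinj : ¬ Module.End.HasEigenvalue ((T - Pc : 𝔸 →L[ℂ] 𝔸) : Module.End ℂ 𝔸) a := by
    intro hev
    obtain ⟨x, hx⟩ := hev.exists_hasEigenvector
    have hx1 : T x - Pc x = a • x := by
      have := hx.apply_eq_smul
      simpa using this
    have hx0 : x ≠ 0 := hx.2
    -- Pc x = -(a x - T x)
    have h1 : Pc x = 0 := by
      apply hK (Pc x) (-x) ((hKmem _).1 (hPcK x))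
      rw [smul_neg, map_neg, ← hx1]
      abel
    rw [h1, sub_zero] at hx1
    have h2 : x ∈ K := (hKmem x).2 hx1
    exact hx0 ((hPck x h2).symm.trans h1)
  have hres := (IsCompactOperator.hasEigenvalue_or_mem_resolventSet hcomp ha0).resolve_left hinj
  have hunit : IsUnit L0 := by
    rw [spectrum.mem_resolventSet_iff] at hres
    convert hres using 1
    ext x
    simp [hL0, hL]
    abel
  obtain ⟨uL, huL⟩ := hunit
  set e : 𝔸 ≃L[ℂ] 𝔸 := ContinuousLinearEquiv.ofUnit uL with he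
  have heL : (e : 𝔸 →L[ℂ] 𝔸) = L0 := by
    rw [← huL]
    ext x
    rfl
  -- the map M
  set M : 𝔸 → 𝔸 := fun x => FF T a x + Pc x with hM
  have hMc : ContDiff ℂ 1 M := (contDiff_FF T a).add Pc.contDiff
  have hM' : HasFDerivAt (𝕜 := ℂ) M (e : 𝔸 →L[ℂ] 𝔸) 0 := by
    have h1 := (hasFDerivAt_FF T a (0:𝔸)).add Pc.hasFDerivAt
    refine h1.congr_fderiv ?_
    rw [heL]
    ext x
    simp [hL0, hL]
  have hM0 : M 0 = 0 := by
    simp [hM, FF, hT1]
  have hMs := (hMc.contDiffAt (x := (0:𝔸))).hasStrictFDerivAt' hM' one_ne_zero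
  set S := hMs.localInverse M e 0 with hS
  have hSc : ContDiffAt ℂ 1 S 0 := by
    have := (hMc.contDiffAt (x := (0:𝔸))).to_localInverse hM' one_ne_zero
    rwa [hM0] at this
  have hS0 : S 0 = 0 := by
    have := hMs.localInverse_apply_image
    rwa [hM0] at this
  have hSl : ∀ᶠ x in 𝓝 (0:𝔸), S (M x) = x := hMs.eventually_left_inverse
  have hSd : ∀ᶠ x in 𝓝 (0:𝔸), DifferentiableAt ℂ S x := by
    have := hSc.eventually (by simp)
    filter_upwards [this] with x hx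
    exact hx.differentiableAt one_ne_zero
  -- the reduced function
  set ψ : K → ℂ := fun k => Psi T a τ (S (k : 𝔸)) with hψ
  have hψd : ∀ᶠ k in 𝓝 (0:K), DifferentiableAt ℂ ψ k := by
    have h0 : Tendsto (fun k : K => (k : 𝔸)) (𝓝 0) (𝓝 (0:𝔸)) := by
      have := (continuous_subtype_val (p := fun x : 𝔸 => x ∈ K)).tendsto (0:K)
      simpa using this
    filter_upwards [h0.eventually hSd] with k hk
    have h1 : DifferentiableAt ℂ (fun k : K => S (k : 𝔸)) k :=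
      hk.comp k K.subtypeL.differentiableAt
    exact ((hasFDerivAt_Psi T a τ ha2 hsym (S (k : 𝔸))).differentiableAt).comp k h1
  set z : ι → K := fun j => P (g j) with hz
  have hzt : Tendsto z 𝒰 (𝓝 0) := by
    have := (P.continuous.tendsto 0).comp hg
    rwa [map_zero] at this
  have hMg : ∀ᶠ j in (𝒰 : Filter ι), M (g j) = (z j : 𝔸) := by
    filter_upwards [heq] with j hj
    show FF T a (g j) + Pc (g j) = _
    rw [FF, hj, sub_self, zero_add]
    rfl
  have hSz : ∀ᶠ j in (𝒰 : Filter ι), S (z j : 𝔸) = g j := by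
    filter_upwards [hMg, hg.eventually hSl] with j h1 h2
    rw [← h1, h2]
  have hzt' : Tendsto (fun j => (z j : 𝔸)) 𝒰 (𝓝 0) := by
    have := (continuous_subtype_val (p := fun x : 𝔸 => x ∈ K)).tendsto (0:K)
    exact this.comp hzt
  have hcrit : ∀ᶠ j in (𝒰 : Filter ι), fderiv ℂ ψ (z j) = 0 := by
    filter_upwards [hSz, hzt'.eventually hSd, heq] with j h1 h2 h3
    have h4 : HasFDerivAt (𝕜 := ℂ) (fun k : K => S (k : 𝔸)) ((fderiv ℂ S (z j : 𝔸)).comp K.subtypeL)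
        (z j) := h2.hasFDerivAt.comp (z j) K.subtypeL.hasFDerivAt
    have h5 := (hasFDerivAt_Psi T a τ ha2 hsym (S (z j : 𝔸))).comp (z j) h4
    have h6 : FF T a (S (z j : 𝔸)) = 0 := by
      rw [h1, FF, h3, sub_self]
    rw [h6, mul_zero] at h5
    have h7 : fderiv ℂ ψ (z j) = (τ.comp (mulBy (0:𝔸))).comp ((fderiv ℂ S (z j : 𝔸)).comp K.subtypeL) :=
      h5.fderiv
    rw [h7]
    ext x
    simp
  have key := CV.critical_value hψd hzt hcrit
  filter_upwards [key, hSz, heq] with j h1 h2 h3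
  have e1 : ∀ x : 𝔸, exp (a • x) = T (exp x) →
      Psi T a τ x = (1 / (a + 1) - 1 / 2) * τ (exp ((a + 1) • x)) := by
    intro x hx
    rw [Psi, ← hx]
    have : exp x * exp (a • x) = exp ((a + 1) • x) := by
      rw [add_smul, one_smul, exp_add', mul_comm]
    rw [this]
    ring
  have h4 : ψ (z j) = (1 / (a + 1) - 1 / 2) * τ (exp ((a + 1) • g j)) := by
    show Psi T a τ (S (z j : 𝔸)) = _
    rw [h2, e1 _ h3]
  have h5 : ψ 0 = (1 / (a + 1) - 1 / 2) * τ 1 := by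
    show Psi T a τ (S ((0 : K) : 𝔸)) = _
    rw [ZeroMemClass.coe_zero, hS0, e1 0 (by simp [hT1])]
    simp
  rw [h4, h5] at h1
  have h6 : (1 / (a + 1) - 1 / 2 : ℂ) ≠ 0 := by
    intro h0
    apply ha1
    field_simp at h0
    linear_combination -h0
  exact mul_left_cancel₀ h6 h1

end

end Pool.Agent.Hhelper23.LE
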