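import Pool.Agent.Hhelper23.LE.Tau

set_option autoImplicit false
set_option linter.unusedSectionVars false

open Filter Topology MeasureTheory
open scoped InnerProductSpace ENNReal

namespace Pool.Agent.Hhelper23.LE

section
variable {X : Type} [MeasurableSpace X] {μ : Measure X} {q : ℝ}
variable [Fact (1 ≤ ENNReal.ofReal q)] {H : Type} [NormedAddCommGroup H] [InnerProductSpace ℝ H]
  [CompleteSpace H] {J : H →L[ℝ] Lp ℝ (ENNReal.ofReal q) μ} {lam1 : ℝ} {w₀ : H} {W : X → ℝ}

lemma Setting.transfer (S : Setting J lam1 w₀ W) {T : LInf (kap μ W) →L[ℂ] LInf (kap μ W)}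
    (hT : S.IsT T) {lam : ℝ} (hlam0 : 0 < lam) {u : H} {U : X → ℝ} (hu : IsSol J lam u U)
    (hup : ∀ᵐ x ∂μ, U x ≤ 2 * W x) (hlow : ∀ᵐ x ∂μ, (1/2) * W x ≤ U x) {c : ℝ} (hc : 0 < c)
    (hcl : c ^ (q - 2) = lam / lam1) {g : LInf (kap μ W)}
    (hg : LInf.fn g =ᵐ[kap μ W] fun x => (((q - 1) * Real.log (c * U x / W x) : ℝ) : ℂ)) :
    NormedSpace.exp (((1 / (q - 1) : ℝ) : ℂ) • g) = T (NormedSpace.exp g) := by
  have hq := S.hq
  have hq1 : q - 1 ≠ 0 := by linarith
  have hUpos : ∀ᵐ x ∂(kap μ W), 0 < U x := by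
    have h1 : ∀ᵐ x ∂(kap μ W), (1/2) * W x ≤ U x := ae_restrict_of_ae hlow
    filter_upwards [h1, S.ae_pos] with x a b
    have : 0 < (1/2) * W x := by positivity
    linarith
  -- the exponential of g
  have hexp : LInf.fn (NormedSpace.exp g) =ᵐ[kap μ W]
      fun x => (((c * U x / W x) ^ (q - 1) : ℝ) : ℂ) := by
    filter_upwards [LInf.fn_exp g, hg, hUpos, S.ae_pos] with x a b d e
    have hpos : 0 < c * U x / W x := by positivity
    rw [a, b, ← Complex.ofReal_exp]
    congr 1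
    rw [Real.rpow_def_of_pos hpos, mul_comm]
  have hrl : IsRl (NormedSpace.exp g) := by
    filter_upwards [hexp] with x a
    rw [a, Complex.ofReal_im]
  -- representation
  set v : H := ((lam1 / lam) * c ^ (q - 1)) • u with hv
  have hrep : IsRep J lam1 W (fun x => (c * U x / W x) ^ (q - 1)) v := by
    intro φ
    rw [hv, real_inner_smul_left, hu.eqn φ]
    have h1 : ∫ x, W x ^ (q - 1) * (c * U x / W x) ^ (q - 1) * J φ x ∂μ =
        c ^ (q - 1) * ∫ x, U x ^ (q - 1) * J φ x ∂μ := by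
      rw [← integral_const_mul]
      refine integral_congr_ae ?_
      filter_upwards [hup] with x hx
      rcases eq_or_lt_of_le (S.hw.nonneg x) with h0 | h0
      · have hU0 : U x = 0 := le_antisymm (by rw [← h0] at hx; linarith) (hu.nonneg x)
        rw [← h0, hU0, Real.zero_rpow hq1]
        simp
      · rw [Real.div_rpow (mul_nonneg hc.le (hu.nonneg x)) h0.le, Real.mul_rpow hc.le (hu.nonneg x)]
        have : W x ^ (q - 1) ≠ 0 := (Real.rpow_pos_of_pos h0 _).ne'
        field_simp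
    rw [h1]
    have := hlam0.ne'
    field_simp
  have hrep' : IsRep J lam1 W (fre (NormedSpace.exp g)) v := by
    refine isRep_congr hq S.hw.nonneg ?_ hrep
    rw [← S.ae_kap]
    filter_upwards [hexp] with x a
    simp only [fre]
    rw [a, Complex.ofReal_re]
  have hJv : ∀ᵐ x ∂(kap μ W), J v x = ((lam1 / lam) * c ^ (q - 1)) * U x := by
    apply ae_restrict_of_ae
    rw [hv, map_smul]
    filter_upwards [Lp.coeFn_smul ((lam1 / lam) * c ^ (q - 1)) (J u), hu.ae_eq] with x a b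
    rw [a, Pi.smul_apply, b, smul_eq_mul]
  apply LInf.ext
  filter_upwards [LInf.fn_exp (((1 / (q - 1) : ℝ) : ℂ) • g),
    LInf.fn_smul ((1 / (q - 1) : ℝ) : ℂ) g, hg, hT _ v hrl hrep', hJv, hUpos, S.ae_pos]
    with x a b d e f h i
  have hpos : 0 < c * U x / W x := by positivity
  rw [a, b, d, e, f, ← Complex.ofReal_mul, ← Complex.ofReal_exp]
  congr 1
  have e1 : 1 / (q - 1) * ((q - 1) * Real.log (c * U x / W x)) = Real.log (c * U x / W x) := by
    field_simp
  rw [e1, Real.exp_log hpos]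
  have e2 : c ^ (q - 1) = c ^ (q - 2) * c := by
    rw [← Real.rpow_add_one hc.ne']
    congr 1
    ring
  rw [e2, hcl]
  have := hlam0.ne'
  have := S.hlam1.ne'
  field_simp

lemma Setting.tau_exp (S : Setting J lam1 w₀ W) {lam : ℝ} {u : H} {U : X → ℝ}
    (hu : IsSol J lam u U)
    (hup : ∀ᵐ x ∂μ, U x ≤ 2 * W x) (hlow : ∀ᵐ x ∂μ, (1/2) * W x ≤ U x) {c : ℝ} (hc : 0 < c)
    {g : LInf (kap μ W)}
    (hg : LInf.fn g =ᵐ[kap μ W] fun x => (((q - 1) * Real.log (c * U x / W x) : ℝ) : ℂ)) :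
    S.tau (NormedSpace.exp ((((1 / (q - 1) : ℝ) : ℂ) + 1) • g)) = ((c ^ q : ℝ) : ℂ) := by
  have hq := S.hq
  have hq1 : q - 1 ≠ 0 := by linarith
  have hUpos : ∀ᵐ x ∂(kap μ W), 0 < U x := by
    have h1 : ∀ᵐ x ∂(kap μ W), (1/2) * W x ≤ U x := ae_restrict_of_ae hlow
    filter_upwards [h1, S.ae_pos] with x a b
    have : 0 < (1/2) * W x := by positivity
    linarith
  have h1 : ∫ x, c ^ q * U x ^ q ∂(kap μ W) = c ^ q := by
    rw [integral_const_mul]
    have h2 : ∫ x, U x ^ q ∂(kap μ W) = ∫ x, U x ^ q ∂μ := by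
      apply setIntegral_eq_integral_of_ae_compl_eq_zero
      filter_upwards [hup] with x hx hx2
      have h0 : W x = 0 := le_antisymm (not_lt.1 hx2) (S.hw.nonneg x)
      have hU0 : U x = 0 := le_antisymm (by rw [h0] at hx; linarith) (hu.nonneg x)
      rw [hU0, Real.zero_rpow (by linarith)]
    rw [h2, hu.int_one, mul_one]
  rw [S.tau_apply, ← h1, ← integral_complex_ofReal]
  refine integral_congr_ae ?_
  filter_upwards [LInf.fn_exp ((((1 / (q - 1) : ℝ) : ℂ) + 1) • g),
    LInf.fn_smul (((1 / (q - 1) : ℝ) : ℂ) + 1) g, hg, hUpos, S.ae_pos] with x a b d e f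
  have hpos : 0 < c * U x / W x := by positivity
  rw [a, b, d]
  have e0 : (((1 / (q - 1) : ℝ) : ℂ) + 1) * (((q - 1) * Real.log (c * U x / W x) : ℝ) : ℂ) =
      ((q * Real.log (c * U x / W x) : ℝ) : ℂ) := by
    rw [← Complex.ofReal_one, ← Complex.ofReal_add, ← Complex.ofReal_mul]
    congr 1
    field_simp
    ring
  rw [e0, ← Complex.ofReal_exp, ← Complex.ofReal_mul]
  congr 1
  have e1 : Real.exp (q * Real.log (c * U x / W x)) = (c * U x / W x) ^ q := by
    rw [Real.rpow_def_of_pos hpos, mul_comm]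
  rw [e1, Real.div_rpow (mul_nonneg hc.le e.le) f.le, Real.mul_rpow hc.le e.le]
  have : W x ^ q ≠ 0 := (Real.rpow_pos_of_pos f _).ne'
  field_simp

lemma Setting.tau_one (S : Setting J lam1 w₀ W) : S.tau 1 = 1 := by
  rw [S.tau_apply]
  have h1 : ∫ x, LInf.fn (1 : LInf (kap μ W)) x * ((W x ^ q : ℝ) : ℂ) ∂(kap μ W) =
      ((∫ x, W x ^ q ∂(kap μ W) : ℝ) : ℂ) := by
    rw [← integral_complex_ofReal]
    refine integral_congr_ae ?_
    filter_upwards [LInf.fn_one (μ := kap μ W)] with x hx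
    rw [hx, one_mul]
  rw [h1, S.int_kap_W, Complex.ofReal_one]

/-- **Abstract isolation theorem, normalised form.** -/
theorem abs_isolation (hq : 2 < q) (hJ : IsCompactOperator J) (hpos : PosProp J) (hlam1 : 0 < lam1)
    (hlam : ∀ v : H, lam1 * ‖J v‖ ^ 2 ≤ ‖v‖ ^ 2) :
    ∃ ε > 0, ∀ lam, lam1 < lam → lam < lam1 + ε → ∀ u : H, ∫ x, |J u x| ^ q ∂μ = 1 →
      ¬ (∀ φ : H, ⟪u, φ⟫_ℝ = lam * ∫ x, |J u x| ^ (q - 2) * J u x * J φ x ∂μ) := by
  have hq0 : 0 < q := by linarith
  set ρ : ℝ := (2 ^ (1 - 2 / q) - 1) * lam1 with hρ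
  have hρ0 : 0 < ρ := by
    apply mul_pos _ hlam1
    rw [sub_pos]
    apply Real.one_lt_rpow (by norm_num)
    rw [sub_pos, div_lt_one hq0]
    exact hq
  by_contra hcon
  push Not at hcon
  have hseq : ∀ n : ℕ, ∃ (lam : ℝ) (u : H) (U : X → ℝ), lam1 < lam ∧ lam < lam1 + ρ / (n + 1) ∧
      IsSol J lam u U := by
    intro n
    have hn : (0:ℝ) < n + 1 := by positivity
    obtain ⟨lam, h1, h2, u, h3, h4⟩ := hcon (ρ / (n + 1)) (by positivity)
    have h5 : lam < 2 ^ (1 - 2 / q) * lam1 := by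
      have h6 : ρ / (n + 1) ≤ ρ := by
        apply div_le_self hρ0.le
        have : (0:ℝ) ≤ n := by positivity
        linarith
      have h7 : lam1 + ρ = 2 ^ (1 - 2 / q) * lam1 := by rw [hρ]; ring
      linarith
    obtain ⟨v, V, hV⟩ := exists_isSol hq hpos hlam1 hlam h5 h3 h4
    exact ⟨lam, v, V, h1, h2, hV⟩
  choose lam u U hl1 hl2 hsol using hseq
  set 𝒰 : Ultrafilter ℕ := hyperfilter ℕ with h𝒰
  have h𝒰le : (𝒰 : Filter ℕ) ≤ atTop := by
    rw [← Nat.cofinite_eq_atTop]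
    exact hyperfilter_le_cofinite
  have hlt : Tendsto lam 𝒰 (𝓝 lam1) := by
    have h1 : Tendsto lam atTop (𝓝 lam1) := by
      have h2 : Tendsto (fun n : ℕ => lam1 + ρ / (n + 1)) atTop (𝓝 lam1) := by
        have h3 := (tendsto_const_div_atTop_nhds_zero_nat ρ).comp (tendsto_add_atTop_nat 1)
        have h4 := h3.const_add lam1
        rw [add_zero] at h4
        refine h4.congr fun n => ?_
        simp
      exact tendsto_of_tendsto_of_tendsto_of_le_of_le tendsto_const_nhds h2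
        (fun n => (hl1 n).le) (fun n => (hl2 n).le)
    exact h1.mono_left h𝒰le
  have hlΛ : ∀ n, lam n ≤ lam1 + ρ := by
    intro n
    have h6 : ρ / (n + 1) ≤ ρ := by
      apply div_le_self hρ0.le
      have : (0:ℝ) ≤ n := by positivity
      linarith
    linarith [hl2 n]
  obtain ⟨w₀, W, hw, hconv⟩ := limit_lemma hq 𝒰 lam u U hsol hlt hJ hlΛ
  have S : Setting J lam1 w₀ W := ⟨hq, hpos, hlam1, hlam, hw, hJ⟩
  obtain ⟨T, hTc, hT⟩ := exists_T S
  have hT' : S.IsT T := hT
  -- uniform closeness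
  have hclose : ∀ η : ℝ, 0 < η → η ≤ 1 → ∀ᶠ n in (𝒰 : Filter ℕ),
      (∀ᵐ x ∂μ, (1 - η) * W x ≤ U n x) ∧ (∀ᵐ x ∂μ, U n x ≤ (1 + η) * W x) := by
    intro η hη hη1
    obtain ⟨δ1, hδ1, hd1⟩ := lower_bound hq hpos hlam1 hlam hw hη hη1
    obtain ⟨δ2, hδ2, hd2⟩ := upper_bound hq hpos hlam1 hlam hw hη hη1
      (Λ := lam1 + ρ) (by positivity)
    have h1 := hconv.eventually (gt_mem_nhds (lt_min hδ1 hδ2))
    filter_upwards [h1] with n hn
    have hn1 := (hn.trans_le (min_le_left _ _)).le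
    have hn2 := (hn.trans_le (min_le_right _ _)).le
    have hl0 : 0 ≤ lam n := hlam1.le.trans (hl1 n).le
    exact ⟨hd1 (u n) (U n) (lam n) hl0 (hsol n) hn1,
      hd2 (u n) (U n) (lam n) hl0 (hlΛ n) (hsol n) hn2⟩
  -- the constants
  set c : ℕ → ℝ := fun n => (lam n / lam1) ^ (1 / (q - 2)) with hc
  have hlam0 : ∀ n, 0 < lam n := fun n => hlam1.trans (hl1 n)
  have hc0 : ∀ n, 0 < c n := fun n => Real.rpow_pos_of_pos (div_pos (hlam0 n) hlam1) _
  have hcl : ∀ n, c n ^ (q - 2) = lam n / lam1 := by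
    intro n
    rw [hc]
    simp only
    rw [← Real.rpow_mul (div_pos (hlam0 n) hlam1).le, one_div_mul_cancel (by linarith),
      Real.rpow_one]
  have hct : Tendsto c 𝒰 (𝓝 1) := by
    have h1 : Tendsto (fun n => lam n / lam1) 𝒰 (𝓝 1) := by
      have := hlt.div_const lam1
      rwa [div_self hlam1.ne'] at this
    have h2 := h1.rpow_const (p := 1 / (q - 2)) (Or.inl one_ne_zero)
    rwa [Real.one_rpow] at h2
  -- the functions r_n
  set r : ℕ → X → ℝ := fun n x => (q - 1) * Real.log (c n * U n x / W x) with hr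
  have hrm : ∀ n, Measurable (r n) := by
    intro n
    exact (Real.measurable_log.comp (((hsol n).meas.const_mul (c n)).div hw.meas)).const_mul (q - 1)
  have hrsmall : ∀ ε : ℝ, 0 < ε → ∀ᶠ n in (𝒰 : Filter ℕ), ∀ᵐ x ∂(kap μ W), |r n x| ≤ ε := by
    intro ε hε
    have hlog : Tendsto (fun t : ℝ => (q - 1) * Real.log t) (𝓝 1) (𝓝 0) := by
      have h1 : ContinuousAt Real.log 1 := Real.continuousAt_log one_ne_zero
      have h2 := h1.tendsto.const_mul (q - 1)
      rwa [Real.log_one, mul_zero] at h2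
    obtain ⟨θ, hθ, hθ2⟩ := Metric.eventually_nhds_iff.1
      ((Metric.tendsto_nhds.1 hlog) ε hε)
    set η : ℝ := min (θ / 8) 1 with hη
    have hη0 : 0 < η := lt_min (by positivity) one_pos
    have hη1 : η ≤ 1 := min_le_right _ _
    have hηθ : η ≤ θ / 8 := min_le_left _ _
    have hc2 : ∀ᶠ n in (𝒰 : Filter ℕ), |c n - 1| < min (θ / 4) 1 := by
      have := (Metric.tendsto_nhds.1 hct) (min (θ / 4) 1) (lt_min (by positivity) one_pos)
      filter_upwards [this] with n hn
      rwa [Real.dist_eq] at hn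
    filter_upwards [hclose η hη0 hη1, hc2] with n h1 h2
    have h3 : ∀ᵐ x ∂(kap μ W), (1 - η) * W x ≤ U n x := ae_restrict_of_ae h1.1
    have h4 : ∀ᵐ x ∂(kap μ W), U n x ≤ (1 + η) * W x := ae_restrict_of_ae h1.2
    filter_upwards [h3, h4, S.ae_pos] with x a b d
    have h5 : |U n x / W x - 1| ≤ η := by
      rw [abs_le]
      constructor
      · have : 1 - η ≤ U n x / W x := by rw [le_div_iff₀ d]; exact a
        linarith
      · have : U n x / W x ≤ 1 + η := by rw [div_le_iff₀ d]; exact b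
        linarith
    have hcn2 : c n ≤ 2 := by
      have := (abs_lt.1 (h2.trans_le (min_le_right _ _))).2
      linarith
    have h6 : |c n * U n x / W x - 1| < θ := by
      have e : c n * U n x / W x - 1 = c n * (U n x / W x - 1) + (c n - 1) := by
        field_simp
        ring
      rw [e]
      have h7 := abs_add_le (c n * (U n x / W x - 1)) (c n - 1)
      have h8 : |c n * (U n x / W x - 1)| ≤ 2 * (θ / 8) := by
        rw [abs_mul, abs_of_pos (hc0 n)]
        exact mul_le_mul hcn2 (h5.trans hηθ) (abs_nonneg _) (by norm_num)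
      have h9 := h2.trans_le (min_le_left _ _)
      linarith
    have h10 := hθ2 (show dist (c n * U n x / W x) 1 < θ by rw [Real.dist_eq]; exact h6)
    rw [Real.dist_eq, sub_zero] at h10
    exact h10.le
  classical
  set g : ℕ → LInf (kap μ W) := fun n =>
    if h : ∀ᵐ x ∂(kap μ W), |r n x| ≤ 1 then ofr (r n) (hrm n) 1 h else 0 with hg
  have hgfn : ∀ᶠ n in (𝒰 : Filter ℕ), LInf.fn (g n) =ᵐ[kap μ W] fun x => ((r n x : ℝ) : ℂ) := by
    filter_upwards [hrsmall 1 one_pos] with n hn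
    simp only [hg]
    rw [dif_pos hn]
    exact fn_ofr _ _ _ _
  have hgt : Tendsto g 𝒰 (𝓝 0) := by
    rw [Metric.tendsto_nhds]
    intro ε hε
    filter_upwards [hrsmall (ε / 2) (by positivity), hgfn] with n h1 h2
    rw [dist_zero_right]
    have : ‖g n‖ ≤ ε / 2 := by
      refine LInf.norm_le (by positivity) ?_
      filter_upwards [h1, h2] with x a b
      rw [b, Complex.norm_real]
      exact a
    linarith
  have hhalf := hclose (1/2) (by norm_num) (by norm_num)
  have heq : ∀ᶠ n in (𝒰 : Filter ℕ),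
      NormedSpace.exp (((1 / (q - 1) : ℝ) : ℂ) • g n) = T (NormedSpace.exp (g n)) := by
    filter_upwards [hgfn, hhalf] with n h1 h2
    refine S.transfer hT' (hlam0 n) (hsol n) ?_ ?_ (hc0 n) (hcl n) h1
    · filter_upwards [h2.2] with x hx
      have := hw.nonneg x
      linarith
    · filter_upwards [h2.1] with x hx
      linarith
  have hq1 : q - 1 ≠ 0 := by linarith
  have key := AL T ((1 / (q - 1) : ℝ) : ℂ) hTc
    (by
      rw [Ne, Complex.ofReal_eq_zero]
      exact (one_div_pos.2 (by linarith)).ne')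
    (by
      rw [Ne, Complex.ofReal_eq_one]
      have : 1 / (q - 1) < 1 := by
        rw [div_lt_one (by linarith)]
        linarith
      exact this.ne)
    (by
      rw [← Complex.ofReal_one, ← Complex.ofReal_add, Ne, Complex.ofReal_eq_zero]
      have : 0 < 1 / (q - 1) := one_div_pos.2 (by linarith)
      linarith)
    S.tau (S.sym hT') (S.T_one hT') (S.kernel_range hT' (1 / (q - 1))) 𝒰 g hgt heq
  obtain ⟨n, h1, h2, h3⟩ := (key.and (hgfn.and hhalf)).exists
  rw [S.tau_one, S.tau_exp (hsol n) (by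
    filter_upwards [h3.2] with x hx
    have := hw.nonneg x
    linarith) (by
    filter_upwards [h3.1] with x hx
    linarith) (hc0 n) h2] at h1
  have h4 : c n ^ q = 1 := by exact_mod_cast h1
  have h5 : 1 < c n := by
    apply Real.one_lt_rpow
    · rw [lt_div_iff₀ hlam1, one_mul]
      exact hl1 n
    · apply one_div_pos.2
      linarith
  have h6 : 1 < c n ^ q := Real.one_lt_rpow h5 hq0
  linarith

end

end Pool.Agent.Hhelper23.LE
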