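import Mathlib

set_option autoImplicit false
set_option linter.unusedSectionVars false

open Filter Topology MeasureTheory

namespace Pool.Agent.Hhelper23.LE

/-- The numerical De Giorgi iteration lemma. -/
lemma iter_lemma {α K B : ℝ} (hα : 0 < α) (hK : 0 ≤ K) (hB : 1 < B) :
    ∃ ε > 0, ∀ I : ℕ → ℝ, (∀ j, 0 ≤ I j) → (∀ j, I (j+1) ≤ K * B ^ j * (I j) ^ (1 + α)) →
      I 0 ≤ ε → Tendsto I atTop (𝓝 0) := by
  have hB0 : 0 < B := by linarith
  set r : ℝ := B ^ (-1 / α) with hr
  have hr0 : 0 < r := Real.rpow_pos_of_pos hB0 _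
  have hr1 : r < 1 := by
    rw [hr]
    apply Real.rpow_lt_one_of_one_lt_of_neg hB
    rw [neg_div]
    exact neg_neg_of_pos (by positivity)
  have hrα : r ^ α = B⁻¹ := by
    rw [hr, ← Real.rpow_mul hB0.le, div_mul_cancel₀ _ hα.ne', Real.rpow_neg_one]
  set ε : ℝ := (r / (K + 1)) ^ (1 / α) with hε
  have hε0 : 0 < ε := Real.rpow_pos_of_pos (by positivity) _
  have hεα : ε ^ α = r / (K + 1) := by
    rw [hε, ← Real.rpow_mul (by positivity), div_mul_cancel₀ _ hα.ne', Real.rpow_one]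
  refine ⟨ε, hε0, fun I hI hrec h0 => ?_⟩
  have hKI : K * (I 0) ^ α ≤ r := by
    have h1 : (I 0) ^ α ≤ ε ^ α := Real.rpow_le_rpow (hI 0) h0 hα.le
    rw [hεα] at h1
    calc K * (I 0) ^ α ≤ K * (r / (K + 1)) := by gcongr
      _ = r * (K / (K + 1)) := by ring
      _ ≤ r * 1 := by
          gcongr
          rw [div_le_one (by positivity)]
          linarith
      _ = r := mul_one r
  have hbound : ∀ j, I j ≤ r ^ j * I 0 := by
    intro j
    induction j with
    | zero => simp
    | succ j ih =>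
      have h1 : (I j) ^ (1 + α) = I j * (I j) ^ α := by
        rcases eq_or_lt_of_le (hI j) with h | h
        · rw [← h, Real.zero_rpow (by linarith), zero_mul]
        · rw [Real.rpow_add h, Real.rpow_one]
      have h2 : (I j) ^ α ≤ (B⁻¹) ^ j * (I 0) ^ α := by
        calc (I j) ^ α ≤ (r ^ j * I 0) ^ α := Real.rpow_le_rpow (hI j) ih hα.le
          _ = (r ^ j) ^ α * (I 0) ^ α := Real.mul_rpow (by positivity) (hI 0)
          _ = (B⁻¹) ^ j * (I 0) ^ α := by
              rw [← Real.rpow_natCast r j, ← Real.rpow_mul hr0.le, mul_comm (j:ℝ) α,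
                Real.rpow_mul hr0.le, hrα, Real.rpow_natCast]
      calc I (j+1) ≤ K * B ^ j * (I j) ^ (1 + α) := hrec j
        _ = K * B ^ j * (I j * (I j) ^ α) := by rw [h1]
        _ ≤ K * B ^ j * ((r ^ j * I 0) * ((B⁻¹) ^ j * (I 0) ^ α)) := by
            apply mul_le_mul_of_nonneg_left _ (by positivity)
            apply mul_le_mul ih h2 (Real.rpow_nonneg (hI j) _)
            exact mul_nonneg (by positivity) (hI 0)
        _ = (K * (I 0) ^ α) * (r ^ j * I 0) * (B ^ j * (B⁻¹) ^ j) := by ring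
        _ = (K * (I 0) ^ α) * (r ^ j * I 0) := by
            rw [← mul_pow, mul_inv_cancel₀ hB0.ne', one_pow, mul_one]
        _ ≤ r * (r ^ j * I 0) := by
            apply mul_le_mul_of_nonneg_right hKI
            exact mul_nonneg (by positivity) (hI 0)
        _ = r ^ (j+1) * I 0 := by ring
  have hlim : Tendsto (fun j : ℕ => r ^ j * I 0) atTop (𝓝 0) := by
    have := (tendsto_pow_atTop_nhds_zero_of_lt_one hr0.le hr1).mul_const (I 0)
    rwa [zero_mul] at this
  exact squeeze_zero hI hbound hlim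

section
variable {X : Type} [MeasurableSpace X] {μ : Measure X}

lemma integrable_rpow_of_memLp {q : ℝ} (hq : 0 < q) {f : X → ℝ} (hf : MemLp f (ENNReal.ofReal q) μ)
    (hf0 : ∀ x, 0 ≤ f x) : Integrable (fun x => f x ^ q) μ := by
  have h1 := hf.integrable_norm_rpow (by simpa using hq) ENNReal.ofReal_ne_top
  rw [ENNReal.toReal_ofReal hq.le] at h1
  refine h1.congr (Eventually.of_forall fun x => ?_)
  simp only
  rw [Real.norm_of_nonneg (hf0 x)]

lemma memLp_posPart {q : ℝ} {f : X → ℝ} (hf : MemLp f (ENNReal.ofReal q) μ) :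
    MemLp (fun x => max (f x) 0) (ENNReal.ofReal q) μ := by
  have := hf.pos_part
  exact this

/-- Hölder in the form used here. -/
lemma holder_weight {q : ℝ} (hq : 2 < q) {V s : X → ℝ} (hV : MemLp V (ENNReal.ofReal q) μ)
    (hs : MemLp s (ENNReal.ofReal q) μ) (hV0 : ∀ x, 0 ≤ V x) (hs0 : ∀ x, 0 ≤ s x) :
    Integrable (fun x => V x ^ (q - 1) * s x) μ ∧
    ∫ x, V x ^ (q - 1) * s x ∂μ ≤ (∫ x, V x ^ q ∂μ) ^ ((q - 1) / q) * (∫ x, s x ^ q ∂μ) ^ (1 / q) := by
  have hq0 : 0 < q := by linarith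
  have hq1 : 0 < q - 1 := by linarith
  have hconj : (q / (q - 1)).HolderConjugate q := by
    rw [Real.holderConjugate_iff]
    constructor
    · rw [lt_div_iff₀ hq1]; linarith
    · field_simp; ring
  have hVq : MemLp (fun x => V x ^ (q - 1)) (ENNReal.ofReal (q / (q - 1))) μ := by
    have h1 := hV.norm_rpow_div (ENNReal.ofReal (q - 1))
    rw [ENNReal.toReal_ofReal hq1.le, ← ENNReal.ofReal_div_of_pos hq1] at h1
    refine (memLp_congr_ae (Eventually.of_forall fun x => ?_)).1 h1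
    rw [Real.norm_of_nonneg (hV0 x)]
  refine ⟨?_, ?_⟩
  · have : (ENNReal.ofReal (q / (q - 1))).HolderConjugate (ENNReal.ofReal q) :=
      ENNReal.HolderConjugate.of_toReal (by
        rw [ENNReal.toReal_ofReal (by positivity), ENNReal.toReal_ofReal hq0.le]
        exact hconj)
    exact hVq.integrable_mul hs
  · have h1 := integral_mul_le_Lp_mul_Lq_of_nonneg hconj
      (Eventually.of_forall fun x => Real.rpow_nonneg (hV0 x) (q - 1))
      (Eventually.of_forall fun x => hs0 x) hVq hs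
    refine h1.trans (le_of_eq ?_)
    congr 1
    have h2 : ∀ x, (V x ^ (q - 1)) ^ (q / (q - 1)) = V x ^ q := by
      intro x
      rw [← Real.rpow_mul (hV0 x), mul_div_cancel₀ _ hq1.ne']
    simp only [h2]
    congr 1
    rw [one_div_div]

/-- **De Giorgi iteration with weight `W^q`.** -/
theorem degiorgi (q C η : ℝ) (hq : 2 < q) (hC : 0 ≤ C) (hη : 0 < η) :
    ∃ δ > 0, ∀ (X : Type) [MeasurableSpace X] (μ : Measure X) (W g : X → ℝ), Measurable W →
      Measurable g → (∀ x, 0 ≤ W x) → MemLp W (ENNReal.ofReal q) μ → MemLp g (ENNReal.ofReal q) μ →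
      (∀ k ∈ Set.Icc 0 η, (∫ x, (max (g x - k * W x) 0) ^ q ∂μ) ^ (2 / q) ≤
        C * ∫ x, W x ^ (q - 1) * max (g x - k * W x) 0 ∂μ) →
      ∫ x, (max (g x) 0) ^ q ∂μ ≤ δ → ∀ᵐ x ∂μ, g x ≤ η * W x := by
  have hq0 : 0 < q := by linarith
  have hq1 : 0 < q - 1 := by linarith
  set K : ℝ := C ^ q * (2 / η) ^ (q * (q - 1)) with hK
  have hK0 : 0 ≤ K := by positivity
  set B : ℝ := (2:ℝ) ^ (q * (q - 1)) with hB
  have hB1 : 1 < B := Real.one_lt_rpow (by norm_num) (by positivity)
  obtain ⟨ε, hε, hiter⟩ := iter_lemma (α := q - 2) (by linarith) hK0 hB1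
  refine ⟨ε, hε, fun X _ μ W g hWm hgm hW0 hW hg hyp hsmall => ?_⟩
  set s : ℝ → X → ℝ := fun k x => max (g x - k * W x) 0 with hs
  set V : ℝ → X → ℝ := fun k x => if k * W x < g x then W x else 0 with hV
  have hs0 : ∀ k x, 0 ≤ s k x := fun k x => le_max_right _ _
  have hV0 : ∀ k x, 0 ≤ V k x := by
    intro k x
    simp only [hV]
    split_ifs
    · exact hW0 x
    · exact le_refl _
  have hsL : ∀ k, MemLp (s k) (ENNReal.ofReal q) μ := fun k =>
    memLp_posPart (hg.sub (hW.const_mul k))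
  have hVL : ∀ k, MemLp (V k) (ENNReal.ofReal q) μ := by
    intro k
    refine hW.mono ?_ (Eventually.of_forall fun x => ?_)
    · exact (Measurable.ite (measurableSet_lt (hWm.const_mul k) hgm) hWm
        measurable_const).aestronglyMeasurable
    · rw [Real.norm_of_nonneg (hV0 k x), Real.norm_of_nonneg (hW0 x)]
      simp only [hV]
      split_ifs
      · exact le_refl _
      · exact hW0 x
  set I : ℝ → ℝ := fun k => ∫ x, s k x ^ q ∂μ with hI
  set m : ℝ → ℝ := fun k => ∫ x, V k x ^ q ∂μ with hm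
  have hI0 : ∀ k, 0 ≤ I k := fun k => integral_nonneg fun x => Real.rpow_nonneg (hs0 k x) _
  have hm0 : ∀ k, 0 ≤ m k := fun k => integral_nonneg fun x => Real.rpow_nonneg (hV0 k x) _
  -- step 1
  have step1 : ∀ k ∈ Set.Icc 0 η, I k ≤ C ^ q * m k ^ (q - 1) := by
    intro k hk
    rcases eq_or_lt_of_le (hI0 k) with h0 | h0
    · rw [← h0]
      have := Real.rpow_nonneg (hm0 k) (q - 1)
      positivity
    have h1 := hyp k hk
    have h2 : ∫ x, W x ^ (q - 1) * max (g x - k * W x) 0 ∂μ = ∫ x, V k x ^ (q - 1) * s k x ∂μ := by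
      refine integral_congr_ae (Eventually.of_forall fun x => ?_)
      simp only [hV, hs]
      split_ifs with h
      · rfl
      · rw [max_eq_right (by linarith), mul_zero, mul_zero]
    have h3 := (holder_weight hq (hVL k) (hsL k) (hV0 k) (hs0 k)).2
    rw [h2] at h1
    have h4 : I k ^ (2 / q) ≤ C * (m k ^ ((q - 1) / q) * I k ^ (1 / q)) :=
      h1.trans (mul_le_mul_of_nonneg_left h3 hC)
    have h5 : I k ^ (2 / q) = I k ^ (1 / q) * I k ^ (1 / q) := by
      rw [← Real.rpow_add h0]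
      congr 1
      ring
    rw [h5] at h4
    have h6 : 0 < I k ^ (1 / q) := Real.rpow_pos_of_pos h0 _
    have h7 : I k ^ (1 / q) ≤ C * m k ^ ((q - 1) / q) := by
      have : I k ^ (1 / q) * I k ^ (1 / q) ≤ (C * m k ^ ((q - 1) / q)) * I k ^ (1 / q) := by
        linarith
      exact le_of_mul_le_mul_right this h6
    have h8 : (I k ^ (1 / q)) ^ q ≤ (C * m k ^ ((q - 1) / q)) ^ q :=
      Real.rpow_le_rpow h6.le h7 hq0.le
    rw [← Real.rpow_mul h0.le, one_div_mul_cancel hq0.ne', Real.rpow_one,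
      Real.mul_rpow hC (Real.rpow_nonneg (hm0 k) _), ← Real.rpow_mul (hm0 k),
      div_mul_cancel₀ _ hq0.ne'] at h8
    exact h8
  -- step 2
  have step2 : ∀ k h, k ≤ h → (h - k) ^ q * m h ≤ I k := by
    intro k h hkh
    rw [hm, hI]
    simp only
    rw [← integral_const_mul]
    refine integral_mono ((integrable_rpow_of_memLp hq0 (hVL h) (hV0 h)).const_mul _)
      (integrable_rpow_of_memLp hq0 (hsL k) (hs0 k)) fun x => ?_
    simp only
    rw [← Real.mul_rpow (by linarith) (hV0 h x)]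
    apply Real.rpow_le_rpow (mul_nonneg (by linarith) (hV0 h x)) _ hq0.le
    simp only [hV, hs]
    split_ifs with hx
    · refine le_trans ?_ (le_max_left _ _)
      nlinarith
    · rw [mul_zero]
      exact le_max_right _ _
  -- the sequence of levels
  set κ : ℕ → ℝ := fun j => η * (1 - (1/2:ℝ) ^ j) with hκ
  have hκmem : ∀ j, κ j ∈ Set.Icc 0 η := by
    intro j
    have h1 : (0:ℝ) < (1/2:ℝ) ^ j := by positivity
    have h2 : ((1:ℝ)/2) ^ j ≤ 1 := pow_le_one₀ (by norm_num) (by norm_num)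
    constructor
    · simp only [hκ]
      exact mul_nonneg hη.le (by linarith)
    · simp only [hκ]
      nlinarith
  have hκd : ∀ j, κ (j+1) - κ j = η / 2 * (1/2:ℝ) ^ j := by
    intro j
    simp only [hκ]
    ring
  have hrec : ∀ j, I (κ (j+1)) ≤ K * B ^ j * (I (κ j)) ^ (1 + (q - 2)) := by
    intro j
    have h1 := step1 _ (hκmem (j+1))
    have hd : 0 < κ (j+1) - κ j := by rw [hκd]; positivity
    have h2 := step2 (κ j) (κ (j+1)) (by linarith)
    have hdq : 0 < (κ (j+1) - κ j) ^ q := Real.rpow_pos_of_pos hd _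
    have h3 : m (κ (j+1)) ≤ I (κ j) / (κ (j+1) - κ j) ^ q := by
      rw [le_div_iff₀ hdq]
      linarith
    have h4 : m (κ (j+1)) ^ (q - 1) ≤ (I (κ j) / (κ (j+1) - κ j) ^ q) ^ (q - 1) :=
      Real.rpow_le_rpow (hm0 _) h3 hq1.le
    refine h1.trans ((mul_le_mul_of_nonneg_left h4 (by positivity)).trans (le_of_eq ?_))
    rw [Real.div_rpow (hI0 _) hdq.le, ← Real.rpow_mul hd.le, hκd]
    have e1 : (η / 2 * (1/2:ℝ) ^ j) ^ (q * (q - 1)) =
        ((2 / η) ^ (q * (q - 1)) * B ^ j)⁻¹ := by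
      rw [Real.mul_rpow (by positivity) (by positivity), mul_inv]
      congr 1
      · rw [← Real.inv_rpow (by positivity), inv_div]
      · rw [hB, ← Real.rpow_natCast (1/2:ℝ) j, ← Real.rpow_natCast ((2:ℝ) ^ (q * (q - 1))) j,
          ← Real.rpow_mul (by norm_num), ← Real.rpow_mul (by norm_num), mul_comm (j:ℝ),
          one_div, Real.inv_rpow (by norm_num)]
    rw [e1, div_inv_eq_mul, hK]
    have e2 : 1 + (q - 2) = q - 1 := by ring
    rw [e2]
    ring
  have hI00 : I (κ 0) ≤ ε := by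
    have : κ 0 = 0 := by simp [hκ]
    rw [this, hI]
    simp only [hs, zero_mul, sub_zero]
    exact hsmall
  have hlim := hiter (fun j => I (κ j)) (fun j => hI0 _) hrec hI00
  have hle : ∀ j, I η ≤ I (κ j) := by
    intro j
    refine integral_mono (integrable_rpow_of_memLp hq0 (hsL _) (hs0 _))
      (integrable_rpow_of_memLp hq0 (hsL _) (hs0 _)) fun x => ?_
    apply Real.rpow_le_rpow (hs0 _ x) _ hq0.le
    simp only [hs]
    apply max_le_max _ (le_refl _)
    have := mul_le_mul_of_nonneg_right (hκmem j).2 (hW0 x)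
    linarith
  have hIη : I η = 0 := le_antisymm (ge_of_tendsto' hlim hle) (hI0 η)
  have h1 := (integral_eq_zero_iff_of_nonneg (fun x => Real.rpow_nonneg (hs0 η x) q)
    (integrable_rpow_of_memLp hq0 (hsL η) (hs0 η))).1 hIη
  filter_upwards [h1] with x hx
  simp only [Pi.zero_apply] at hx
  have h2 : s η x = 0 := (Real.rpow_eq_zero (hs0 η x) hq0.ne').1 hx
  have h3 : g x - η * W x ≤ s η x := le_max_left _ _
  rw [h2] at h3
  linarith

end

end Pool.Agent.Hhelper23.LE
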