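import Pool.Agent.Hhelper23.LE.Setup

set_option autoImplicit false
set_option linter.unusedSectionVars false

open Filter Topology MeasureTheory
open scoped InnerProductSpace

namespace Pool.Agent.Hhelper23.LE

section
variable {X : Type} [MeasurableSpace X] {μ : Measure X} {q : ℝ}
variable [Fact (1 ≤ ENNReal.ofReal q)] {H : Type} [NormedAddCommGroup H] [InnerProductSpace ℝ H]
  [CompleteSpace H] {J : H →L[ℝ] Lp ℝ (ENNReal.ofReal q) μ}

lemma IsSol.comb (hq : 2 < q) {l1 l2 : ℝ} {u1 u2 : H} {U1 U2 : X → ℝ} (h1 : IsSol J l1 u1 U1)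
    (h2 : IsSol J l2 u2 U2) (α β : ℝ) :
    (∀ φ : H, ⟪α • u1 - β • u2, φ⟫_ℝ =
      ∫ x, (α * l1 * U1 x ^ (q - 1) - β * l2 * U2 x ^ (q - 1)) * J φ x ∂μ) ∧
    (J (α • u1 - β • u2) =ᵐ[μ] fun x => α * U1 x - β * U2 x) := by
  constructor
  · intro φ
    rw [inner_sub_left, real_inner_smul_left, real_inner_smul_left, h1.eqn, h2.eqn]
    have e : ∀ x, (α * l1 * U1 x ^ (q - 1) - β * l2 * U2 x ^ (q - 1)) * J φ x =
        (α * l1) * (U1 x ^ (q - 1) * J φ x) - (β * l2) * (U2 x ^ (q - 1) * J φ x) := fun x => by ring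
    simp only [e]
    rw [integral_sub ((integrable_pow_mul_J hq h1.memLp h1.nonneg φ).const_mul _)
      ((integrable_pow_mul_J hq h2.memLp h2.nonneg φ).const_mul _), integral_const_mul,
      integral_const_mul]
    ring
  · rw [map_sub, map_smul, map_smul]
    filter_upwards [Lp.coeFn_sub (α • J u1) (β • J u2), Lp.coeFn_smul α (J u1),
      Lp.coeFn_smul β (J u2), h1.ae_eq, h2.ae_eq] with x e1 e2 e3 e4 e5
    rw [e1, Pi.sub_apply, e2, e3, Pi.smul_apply, Pi.smul_apply, e4, e5]
    rfl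

lemma lower_bound (hq : 2 < q) (hpos : PosProp J) {lam1 : ℝ} (hlam1 : 0 < lam1)
    (hlam : ∀ v : H, lam1 * ‖J v‖ ^ 2 ≤ ‖v‖ ^ 2) {w₀ : H} {W : X → ℝ} (hw : IsSol J lam1 w₀ W)
    {η : ℝ} (hη : 0 < η) (hη1 : η ≤ 1) :
    ∃ δ > 0, ∀ (u : H) (U : X → ℝ) (lam : ℝ), 0 ≤ lam → IsSol J lam u U →
      ∫ x, |U x - W x| ^ q ∂μ ≤ δ → ∀ᵐ x ∂μ, (1 - η) * W x ≤ U x := by
  have hq0 : 0 < q := by linarith
  obtain ⟨δ, hδ, hdg⟩ := degiorgi q 1 η hq zero_le_one hη
  refine ⟨δ, hδ, fun u U lam hlam0 hu hsmall => ?_⟩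
  have hgL : MemLp (fun x => W x - U x) (ENNReal.ofReal q) μ := hw.memLp.sub hu.memLp
  have := hdg X μ W (fun x => W x - U x) hw.meas (hw.meas.sub hu.meas) hw.nonneg hw.memLp hgL ?_ ?_
  · filter_upwards [this] with x hx
    linarith
  · intro k hk
    have hk1 : k ≤ 1 := hk.2.trans hη1
    obtain ⟨hc1, hc2⟩ := hw.comb hq hu (1 - k) 1
    have hkey := pos_test hq hpos hlam hc1 hc2
    have e1 : ∀ x, (1 - k) * W x - 1 * U x = W x - U x - k * W x := fun x => by ring
    simp only [e1] at hkey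
    rw [one_mul]
    have hsL : MemLp (fun x => max (W x - U x - k * W x) 0) (ENNReal.ofReal q) μ :=
      memLp_posPart (hgL.sub (hw.memLp.const_mul k))
    have hs0 : ∀ x, 0 ≤ max (W x - U x - k * W x) 0 := fun x => le_max_right _ _
    have hi1 := (holder_weight hq hw.memLp hsL hw.nonneg hs0).1
    have hi2 := (holder_weight hq hu.memLp hsL hu.nonneg hs0).1
    have hle : ∫ x, ((1 - k) * lam1 * W x ^ (q - 1) - 1 * lam * U x ^ (q - 1)) *
        max (W x - U x - k * W x) 0 ∂μ ≤ lam1 * ∫ x, W x ^ (q - 1) * max (W x - U x - k * W x) 0 ∂μ := by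
      rw [← integral_const_mul]
      refine integral_mono ?_ (hi1.const_mul _) fun x => ?_
      · have e : (fun x => ((1 - k) * lam1 * W x ^ (q - 1) - 1 * lam * U x ^ (q - 1)) *
          max (W x - U x - k * W x) 0) = fun x => ((1 - k) * lam1) * (W x ^ (q - 1) *
          max (W x - U x - k * W x) 0) - lam * (U x ^ (q - 1) * max (W x - U x - k * W x) 0) := by
          funext x; ring
        rw [e]
        exact (hi1.const_mul _).sub (hi2.const_mul _)
      · simp only
        have a1 : 0 ≤ W x ^ (q - 1) * max (W x - U x - k * W x) 0 :=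
          mul_nonneg (Real.rpow_nonneg (hw.nonneg x) _) (hs0 x)
        have a2 : 0 ≤ U x ^ (q - 1) * max (W x - U x - k * W x) 0 :=
          mul_nonneg (Real.rpow_nonneg (hu.nonneg x) _) (hs0 x)
        have a3 : 0 ≤ (k * lam1) * (W x ^ (q - 1) * max (W x - U x - k * W x) 0) :=
          mul_nonneg (mul_nonneg hk.1 hlam1.le) a1
        have a4 : 0 ≤ lam * (U x ^ (q - 1) * max (W x - U x - k * W x) 0) := mul_nonneg hlam0 a2
        have e : ((1 - k) * lam1 * W x ^ (q - 1) - 1 * lam * U x ^ (q - 1)) *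
          max (W x - U x - k * W x) 0 = lam1 * (W x ^ (q - 1) * max (W x - U x - k * W x) 0) -
          (k * lam1) * (W x ^ (q - 1) * max (W x - U x - k * W x) 0) -
          lam * (U x ^ (q - 1) * max (W x - U x - k * W x) 0) := by ring
        rw [e]
        linarith
    exact le_of_mul_le_mul_left (hkey.trans hle) hlam1
  · refine le_trans (integral_mono (integrable_rpow_of_memLp hq0 (memLp_posPart hgL)
      fun x => le_max_right _ _) (integrable_rpow_of_memLp hq0 ((hu.memLp.sub hw.memLp).norm)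
      fun x => norm_nonneg _) fun x => ?_) hsmall
    simp only
    apply Real.rpow_le_rpow (le_max_right _ _) _ hq0.le
    apply max_le _ (norm_nonneg _)
    simp only [Pi.sub_apply, Real.norm_eq_abs]
    rw [abs_sub_comm]
    exact le_abs_self _

lemma upper_bound (hq : 2 < q) (hpos : PosProp J) {lam1 : ℝ} (hlam1 : 0 < lam1)
    (hlam : ∀ v : H, lam1 * ‖J v‖ ^ 2 ≤ ‖v‖ ^ 2) {w₀ : H} {W : X → ℝ} (hw : IsSol J lam1 w₀ W)
    {η : ℝ} (hη : 0 < η) (hη1 : η ≤ 1) {Λ : ℝ} (hΛ : 0 < Λ) :
    ∃ δ > 0, ∀ (u : H) (U : X → ℝ) (lam : ℝ), 0 ≤ lam → lam ≤ Λ → IsSol J lam u U →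
      ∫ x, |U x - W x| ^ q ∂μ ≤ δ → ∀ᵐ x ∂μ, U x ≤ (1 + η) * W x := by
  have hq0 : 0 < q := by linarith
  set C : ℝ := 2 * Λ * 4 ^ (q - 1) / lam1 with hC
  have hC0 : 0 ≤ C := by positivity
  obtain ⟨δ, hδ, hdg⟩ := degiorgi q C η hq hC0 hη
  set δ₁ : ℝ := (lam1 / (2 * Λ * 2 ^ (q - 1))) ^ (q / (q - 2)) with hδ₁
  have hδ₁0 : 0 < δ₁ := Real.rpow_pos_of_pos (by positivity) _
  have hδ₁p : Λ * 2 ^ (q - 1) * δ₁ ^ (1 - 2 / q) = lam1 / 2 := by
    rw [hδ₁, ← Real.rpow_mul (by positivity)]
    have : q / (q - 2) * (1 - 2 / q) = 1 := by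
      have : q - 2 ≠ 0 := by linarith
      field_simp
    rw [this, Real.rpow_one]
    field_simp
  refine ⟨min δ δ₁, lt_min hδ hδ₁0, fun u U lam hlam0 hlamΛ hu hsmall => ?_⟩
  have hgL : MemLp (fun x => U x - W x) (ENNReal.ofReal q) μ := hu.memLp.sub hw.memLp
  have hposle : ∀ k, 0 ≤ k → ∫ x, (max (U x - W x - k * W x) 0) ^ q ∂μ ≤ ∫ x, |U x - W x| ^ q ∂μ := by
    intro k hk
    refine integral_mono (integrable_rpow_of_memLp hq0 (memLp_posPart (hgL.sub
      (hw.memLp.const_mul k))) fun x => le_max_right _ _) (integrable_rpow_of_memLp hq0 hgL.norm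
      fun x => abs_nonneg _) fun x => ?_
    simp only
    apply Real.rpow_le_rpow (le_max_right _ _) _ hq0.le
    apply max_le _ (abs_nonneg _)
    have := mul_nonneg hk (hw.nonneg x)
    have h2 := le_abs_self (U x - W x)
    linarith
  have := hdg X μ W (fun x => U x - W x) hw.meas (hu.meas.sub hw.meas) hw.nonneg hw.memLp hgL ?_ ?_
  · filter_upwards [this] with x hx
    linarith
  · intro k hk
    have hk1 : k ≤ 1 := hk.2.trans hη1
    obtain ⟨hc1, hc2⟩ := hu.comb hq hw 1 (1 + k)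
    have hkey := pos_test hq hpos hlam hc1 hc2
    have e1 : ∀ x, 1 * U x - (1 + k) * W x = U x - W x - k * W x := fun x => by ring
    simp only [e1] at hkey
    have hsL : MemLp (fun x => max (U x - W x - k * W x) 0) (ENNReal.ofReal q) μ :=
      memLp_posPart (hgL.sub (hw.memLp.const_mul k))
    have hs0 : ∀ x, 0 ≤ max (U x - W x - k * W x) 0 := fun x => le_max_right _ _
    have hi1 := (holder_weight hq hw.memLp hsL hw.nonneg hs0).1
    have hi2 := (holder_weight hq hu.memLp hsL hu.nonneg hs0).1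
    have hi3 := integrable_rpow_of_memLp hq0 hsL hs0
    set I : ℝ := ∫ x, (max (U x - W x - k * W x) 0) ^ q ∂μ with hI
    set N : ℝ := ∫ x, W x ^ (q - 1) * max (U x - W x - k * W x) 0 ∂μ with hN
    have hI0 : 0 ≤ I := integral_nonneg fun x => Real.rpow_nonneg (hs0 x) _
    have hIδ : I ≤ δ₁ := (hposle k hk.1).trans (hsmall.trans (min_le_right _ _))
    have hle : ∫ x, (1 * lam * U x ^ (q - 1) - (1 + k) * lam1 * W x ^ (q - 1)) *
        max (U x - W x - k * W x) 0 ∂μ ≤ Λ * 4 ^ (q - 1) * N + Λ * 2 ^ (q - 1) * I := by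
      rw [hN, hI, ← integral_const_mul, ← integral_const_mul,
        ← integral_add (hi1.const_mul _) (hi3.const_mul _)]
      refine integral_mono ?_ ((hi1.const_mul _).add (hi3.const_mul _)) fun x => ?_
      · have e : (fun x => (1 * lam * U x ^ (q - 1) - (1 + k) * lam1 * W x ^ (q - 1)) *
          max (U x - W x - k * W x) 0) = fun x => lam * (U x ^ (q - 1) *
          max (U x - W x - k * W x) 0) - ((1 + k) * lam1) * (W x ^ (q - 1) * max (U x - W x - k * W x) 0) := by
          funext x; ring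
        rw [e]
        exact (hi2.const_mul _).sub (hi1.const_mul _)
      · simp only
        set s : ℝ := max (U x - W x - k * W x) 0 with hs
        have hs0x : 0 ≤ s := hs0 x
        have a1 : 0 ≤ W x ^ (q - 1) * s := mul_nonneg (Real.rpow_nonneg (hw.nonneg x) _) hs0x
        have a3 : 0 ≤ ((1 + k) * lam1) * (W x ^ (q - 1) * s) :=
          mul_nonneg (mul_nonneg (by linarith [hk.1]) hlam1.le) a1
        -- bound on U
        have hU : U x ^ (q - 1) * s ≤ 4 ^ (q - 1) * (W x ^ (q - 1) * s) + 2 ^ (q - 1) * s ^ q := by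
          rcases eq_or_lt_of_le hs0x with h0 | h0
          · rw [← h0, Real.zero_rpow hq0.ne']
            simp
          · have hUs : U x ≤ 2 * W x + s := by
              have h1 : s = U x - W x - k * W x := by
                rw [hs]
                apply max_eq_left
                by_contra hcon
                have : s = 0 := max_eq_right (le_of_lt (not_le.1 hcon))
                linarith
              have h2 : k * W x ≤ 1 * W x := mul_le_mul_of_nonneg_right hk1 (hw.nonneg x)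
              linarith
            have hsq : s ^ q = s ^ (q - 1) * s := by
              rw [← Real.rpow_add_one h0.ne', sub_add_cancel]
            have hUq : U x ^ (q - 1) ≤ 4 ^ (q - 1) * W x ^ (q - 1) + 2 ^ (q - 1) * s ^ (q - 1) := by
              rcases le_total (2 * W x) s with h | h
              · have h1 : U x ^ (q - 1) ≤ (2 * s) ^ (q - 1) :=
                  Real.rpow_le_rpow (hu.nonneg x) (by linarith) (by linarith)
                rw [Real.mul_rpow (by norm_num) hs0x] at h1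
                have h2 : 0 ≤ (4:ℝ) ^ (q - 1) * W x ^ (q - 1) :=
                  mul_nonneg (by positivity) (Real.rpow_nonneg (hw.nonneg x) _)
                linarith
              · have h1 : U x ^ (q - 1) ≤ (4 * W x) ^ (q - 1) :=
                  Real.rpow_le_rpow (hu.nonneg x) (by linarith) (by linarith)
                rw [Real.mul_rpow (by norm_num) (hw.nonneg x)] at h1
                have h2 : 0 ≤ (2:ℝ) ^ (q - 1) * s ^ (q - 1) :=
                  mul_nonneg (by positivity) (Real.rpow_nonneg hs0x _)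
                linarith
            calc U x ^ (q - 1) * s ≤ (4 ^ (q - 1) * W x ^ (q - 1) + 2 ^ (q - 1) * s ^ (q - 1)) * s :=
                  mul_le_mul_of_nonneg_right hUq hs0x
              _ = _ := by rw [hsq]; ring
        have hU0 : 0 ≤ U x ^ (q - 1) * s := mul_nonneg (Real.rpow_nonneg (hu.nonneg x) _) hs0x
        calc (1 * lam * U x ^ (q - 1) - (1 + k) * lam1 * W x ^ (q - 1)) * s
            = lam * (U x ^ (q - 1) * s) - ((1 + k) * lam1) * (W x ^ (q - 1) * s) := by ring
          _ ≤ lam * (U x ^ (q - 1) * s) := by linarith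
          _ ≤ Λ * (U x ^ (q - 1) * s) := mul_le_mul_of_nonneg_right hlamΛ hU0
          _ ≤ Λ * (4 ^ (q - 1) * (W x ^ (q - 1) * s) + 2 ^ (q - 1) * s ^ q) :=
              mul_le_mul_of_nonneg_left hU hΛ.le
          _ = _ := by ring
    have habs : Λ * 2 ^ (q - 1) * I ≤ lam1 / 2 * I ^ (2 / q) := by
      rcases eq_or_lt_of_le hI0 with h0 | h0
      · rw [← h0, mul_zero]
        have := Real.rpow_nonneg (le_refl (0:ℝ)) (2 / q)
        positivity
      · have h1 : I = I ^ (1 - 2 / q) * I ^ (2 / q) := by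
          rw [← Real.rpow_add h0]
          ring_nf
          rw [Real.rpow_one]
        have h2 : I ^ (1 - 2 / q) ≤ δ₁ ^ (1 - 2 / q) := by
          apply Real.rpow_le_rpow hI0 hIδ
          rw [sub_nonneg, div_le_one hq0]
          exact hq.le
        have h3 : 0 ≤ I ^ (2 / q) := Real.rpow_nonneg hI0 _
        calc Λ * 2 ^ (q - 1) * I = Λ * 2 ^ (q - 1) * (I ^ (1 - 2 / q) * I ^ (2 / q)) := by rw [← h1]
          _ = Λ * 2 ^ (q - 1) * I ^ (1 - 2 / q) * I ^ (2 / q) := by ring
          _ ≤ Λ * 2 ^ (q - 1) * δ₁ ^ (1 - 2 / q) * I ^ (2 / q) := by gcongr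
          _ = lam1 / 2 * I ^ (2 / q) := by rw [hδ₁p]
    have hfin : lam1 / 2 * I ^ (2 / q) ≤ Λ * 4 ^ (q - 1) * N := by
      have := hkey.trans hle
      linarith
    rw [hC]
    have e2 : 2 * Λ * 4 ^ (q - 1) / lam1 * N = (Λ * 4 ^ (q - 1) * N) / (lam1 / 2) := by
      field_simp
    rw [e2, le_div_iff₀ (by positivity)]
    linarith
  · refine le_trans ?_ (hsmall.trans (min_le_left _ _))
    have := hposle 0 le_rfl
    simpa using this

end

end Pool.Agent.Hhelper23.LE
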