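import Mathlib

set_option autoImplicit false
set_option linter.unusedSectionVars false

open Filter Topology MeasureTheory
open scoped ENNReal

namespace Pool.Agent.Hhelper23.LE

/-- essentially bounded complex functions -/
def LInf {X : Type} [MeasurableSpace X] (μ : Measure X) : Type := Lp ℂ ∞ μ

namespace LInf

section
variable {X : Type} [MeasurableSpace X] {μ : Measure X}

noncomputable instance : NormedAddCommGroup (LInf μ) :=
  inferInstanceAs (NormedAddCommGroup (Lp ℂ ∞ μ))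

noncomputable instance : NormedSpace ℂ (LInf μ) := inferInstanceAs (NormedSpace ℂ (Lp ℂ ∞ μ))

instance : CompleteSpace (LInf μ) := inferInstanceAs (CompleteSpace (Lp ℂ ∞ μ))

/-- representative -/
noncomputable def fn (f : LInf μ) : X → ℂ := ⇑(show Lp ℂ ∞ μ from f)

/-- class of an essentially bounded function -/
noncomputable def mk (f : X → ℂ) (hf : MemLp f ∞ μ) : LInf μ := hf.toLp f

lemma fn_mk (f : X → ℂ) (hf : MemLp f ∞ μ) : fn (mk f hf) =ᵐ[μ] f := hf.coeFn_toLp

lemma memLp (f : LInf μ) : MemLp (fn f) ∞ μ := Lp.memLp (show Lp ℂ ∞ μ from f)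

lemma measurable_fn (f : LInf μ) : Measurable (fn f) :=
  (Lp.stronglyMeasurable (show Lp ℂ ∞ μ from f)).measurable

lemma ext {f g : LInf μ} (h : fn f =ᵐ[μ] fn g) : f = g := Lp.ext h

lemma mk_fn (f : LInf μ) : mk (fn f) (memLp f) = f := ext (fn_mk _ _)

lemma fn_add (f g : LInf μ) : fn (f + g) =ᵐ[μ] fun x => fn f x + fn g x :=
  Lp.coeFn_add (show Lp ℂ ∞ μ from f) (show Lp ℂ ∞ μ from g)

lemma fn_sub (f g : LInf μ) : fn (f - g) =ᵐ[μ] fun x => fn f x - fn g x :=
  Lp.coeFn_sub (show Lp ℂ ∞ μ from f) (show Lp ℂ ∞ μ from g)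

lemma fn_neg (f : LInf μ) : fn (-f) =ᵐ[μ] fun x => - fn f x :=
  Lp.coeFn_neg (show Lp ℂ ∞ μ from f)

lemma fn_smul (c : ℂ) (f : LInf μ) : fn (c • f) =ᵐ[μ] fun x => c * fn f x :=
  Lp.coeFn_smul c (show Lp ℂ ∞ μ from f)

lemma fn_zero : fn (0 : LInf μ) =ᵐ[μ] fun _ => 0 :=
  Lp.coeFn_zero ℂ ∞ μ

lemma ae_norm_le (f : LInf μ) : ∀ᵐ x ∂μ, ‖fn f x‖ ≤ ‖f‖ := by
  have h1 : ‖f‖ = (eLpNormEssSup (fn f) μ).toReal := by
    show ‖(show Lp ℂ ∞ μ from f)‖ = _
    rw [Lp.norm_def, eLpNorm_exponent_top]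
    rfl
  have hfin : eLpNormEssSup (fn f) μ ≠ ∞ := by
    have := (memLp f).2
    rw [eLpNorm_exponent_top] at this
    exact this.ne
  filter_upwards [ae_le_eLpNormEssSup (f := fn f) (μ := μ)] with x hx
  rw [h1]
  have := ENNReal.toReal_mono hfin hx
  simpa using this

lemma norm_le {f : LInf μ} {C : ℝ} (hC : 0 ≤ C) (h : ∀ᵐ x ∂μ, ‖fn f x‖ ≤ C) : ‖f‖ ≤ C := by
  have h1 : ‖f‖ = (eLpNormEssSup (fn f) μ).toReal := by
    show ‖(show Lp ℂ ∞ μ from f)‖ = _
    rw [Lp.norm_def, eLpNorm_exponent_top]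
    rfl
  rw [h1]
  apply ENNReal.toReal_le_of_le_ofReal hC
  exact eLpNormEssSup_le_of_ae_bound h

lemma memLp_of_bound {f : X → ℂ} (hf : AEStronglyMeasurable f μ) (C : ℝ) (h : ∀ᵐ x ∂μ, ‖f x‖ ≤ C) :
    MemLp f ∞ μ := memLp_top_of_bound hf C h

noncomputable instance : Mul (LInf μ) where
  mul f g := mk (fun x => fn f x * fn g x) (memLp_of_bound
    ((memLp f).1.mul (memLp g).1) (‖f‖ * ‖g‖) (by
      filter_upwards [ae_norm_le f, ae_norm_le g] with x h1 h2
      rw [norm_mul]
      exact mul_le_mul h1 h2 (norm_nonneg _) (norm_nonneg _)))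

noncomputable instance : One (LInf μ) where
  one := mk (fun _ => 1) (memLp_of_bound aestronglyMeasurable_const 1 (by simp))

lemma fn_mul (f g : LInf μ) : fn (f * g) =ᵐ[μ] fun x => fn f x * fn g x := fn_mk _ _

lemma fn_one : fn (1 : LInf μ) =ᵐ[μ] fun _ => 1 := fn_mk _ _

noncomputable instance : CommRing (LInf μ) :=
  { (inferInstance : AddCommGroup (LInf μ)) with
    mul := (· * ·)
    one := 1
    mul_assoc := fun f g h => ext (by
      filter_upwards [fn_mul (f * g) h, fn_mul f g, fn_mul f (g * h), fn_mul g h] with x a b c d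
      rw [a, b, c, d, mul_assoc])
    one_mul := fun f => ext (by
      filter_upwards [fn_mul 1 f, fn_one (μ := μ)] with x a b
      rw [a, b, one_mul])
    mul_one := fun f => ext (by
      filter_upwards [fn_mul f 1, fn_one (μ := μ)] with x a b
      rw [a, b, mul_one])
    zero_mul := fun f => ext (by
      filter_upwards [fn_mul 0 f, fn_zero (μ := μ)] with x a b
      rw [a, b, zero_mul])
    mul_zero := fun f => ext (by
      filter_upwards [fn_mul f 0, fn_zero (μ := μ)] with x a b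
      rw [a, b, mul_zero])
    left_distrib := fun f g h => ext (by
      filter_upwards [fn_mul f (g + h), fn_add g h, fn_add (f * g) (f * h), fn_mul f g, fn_mul f h]
        with x a b c d e
      rw [a, b, c, d, e, mul_add])
    right_distrib := fun f g h => ext (by
      filter_upwards [fn_mul (f + g) h, fn_add f g, fn_add (f * h) (g * h), fn_mul f h, fn_mul g h]
        with x a b c d e
      rw [a, b, c, d, e, add_mul])
    mul_comm := fun f g => ext (by
      filter_upwards [fn_mul f g, fn_mul g f] with x a b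
      rw [a, b, mul_comm]) }

noncomputable instance : NormedCommRing (LInf μ) :=
  { (inferInstance : NormedAddCommGroup (LInf μ)), (inferInstance : CommRing (LInf μ)) with
    norm_mul_le := fun f g => norm_le (mul_nonneg (norm_nonneg _) (norm_nonneg _)) (by
      filter_upwards [fn_mul f g, ae_norm_le f, ae_norm_le g] with x a b c
      rw [a, norm_mul]
      exact mul_le_mul b c (norm_nonneg _) (norm_nonneg _)) }

noncomputable instance : NormedAlgebra ℂ (LInf μ) :=
  { Algebra.ofModule (fun r f g => ext (by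
      filter_upwards [fn_mul (r • f) g, fn_smul r f, fn_smul r (f * g), fn_mul f g] with x a b c d
      rw [a, b, c, d, mul_assoc])) (fun r f g => ext (by
      filter_upwards [fn_mul f (r • g), fn_smul r g, fn_smul r (f * g), fn_mul f g] with x a b c d
      rw [a, b, c, d]
      ring)) with
    norm_smul_le := fun r f => norm_smul_le r f }

lemma fn_pow (f : LInf μ) (n : ℕ) : fn (f ^ n) =ᵐ[μ] fun x => fn f x ^ n := by
  induction n with
  | zero =>
    rw [pow_zero]
    filter_upwards [fn_one (μ := μ)] with x a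
    rw [a, pow_zero]
  | succ n ih =>
    rw [pow_succ]
    filter_upwards [fn_mul (f ^ n) f, ih] with x a b
    rw [a, b, pow_succ]

lemma fn_sum {κ : Type} (s : Finset κ) (f : κ → LInf μ) :
    fn (∑ i ∈ s, f i) =ᵐ[μ] fun x => ∑ i ∈ s, fn (f i) x := by
  classical
  induction s using Finset.induction_on with
  | empty =>
    simp only [Finset.sum_empty]
    exact fn_zero
  | insert a s ha ih =>
    rw [Finset.sum_insert ha]
    filter_upwards [fn_add (f a) (∑ i ∈ s, f i), ih] with x h1 h2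
    rw [h1, h2, Finset.sum_insert ha]

lemma fn_exp (f : LInf μ) : fn (NormedSpace.exp f) =ᵐ[μ] fun x => Complex.exp (fn f x) := by
  have hs := (NormedSpace.exp_series_hasSum_exp' (𝕂 := ℂ) f).tendsto_sum_nat
  have h1 : ∀ᵐ x ∂μ, ∀ N : ℕ, ‖fn ((∑ n ∈ Finset.range N, ((n.factorial : ℂ)⁻¹) • f ^ n) -
      NormedSpace.exp f) x‖ ≤ ‖(∑ n ∈ Finset.range N, ((n.factorial : ℂ)⁻¹) • f ^ n) -
      NormedSpace.exp f‖ := ae_all_iff.2 fun N => ae_norm_le _
  have h2 : ∀ᵐ x ∂μ, ∀ N : ℕ, fn ((∑ n ∈ Finset.range N, ((n.factorial : ℂ)⁻¹) • f ^ n) -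
      NormedSpace.exp f) x = (∑ n ∈ Finset.range N, ((n.factorial : ℂ)⁻¹) * (fn f x) ^ n) -
      fn (NormedSpace.exp f) x := by
    refine ae_all_iff.2 fun N => ?_
    have h3 : ∀ᵐ x ∂μ, ∀ n : ℕ, fn (((n.factorial : ℂ)⁻¹) • f ^ n) x =
        ((n.factorial : ℂ)⁻¹) * (fn f x) ^ n := by
      refine ae_all_iff.2 fun n => ?_
      filter_upwards [fn_smul ((n.factorial : ℂ)⁻¹) (f ^ n), fn_pow f n] with x a b
      rw [a, b]
    filter_upwards [fn_sub (∑ n ∈ Finset.range N, ((n.factorial : ℂ)⁻¹) • f ^ n)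
      (NormedSpace.exp f), fn_sum (Finset.range N) (fun n => ((n.factorial : ℂ)⁻¹) • f ^ n), h3]
      with x a b c
    rw [a, b]
    simp only [c]
  filter_upwards [h1, h2] with x a b
  have h4 : Tendsto (fun N : ℕ => ∑ n ∈ Finset.range N, ((n.factorial : ℂ)⁻¹) * (fn f x) ^ n) atTop
      (𝓝 (fn (NormedSpace.exp f) x)) := by
    rw [tendsto_iff_norm_sub_tendsto_zero]
    refine squeeze_zero (fun N => norm_nonneg _) (fun N => ?_) (tendsto_iff_norm_sub_tendsto_zero.1 hs)
    rw [← b N]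
    exact a N
  have h5 : Tendsto (fun N : ℕ => ∑ n ∈ Finset.range N, ((n.factorial : ℂ)⁻¹) * (fn f x) ^ n) atTop
      (𝓝 (Complex.exp (fn f x))) := by
    have := (NormedSpace.exp_series_hasSum_exp' (𝕂 := ℂ) (fn f x)).tendsto_sum_nat
    rw [← Complex.exp_eq_exp_ℂ] at this
    exact this
  exact tendsto_nhds_unique h4 h5

end

end LInf

end Pool.Agent.Hhelper23.LE
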