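import Pool.Agent.Hhelper23.LE.Est

set_option autoImplicit false
set_option linter.unusedSectionVars false

open Filter Topology MeasureTheory
open scoped InnerProductSpace

namespace Pool.Agent.Hhelper23.LE

section
variable {X : Type} [MeasurableSpace X] {μ : Measure X} {q : ℝ}
variable [Fact (1 ≤ ENNReal.ofReal q)] {H : Type} [NormedAddCommGroup H] [InnerProductSpace ℝ H]
  [CompleteSpace H] {J : H →L[ℝ] Lp ℝ (ENNReal.ofReal q) μ}

lemma abs_rpow_mul_pos (hq : 2 < q) (t : ℝ) : |t| ^ (q - 2) * t * max t 0 = (max t 0) ^ q := by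
  rcases le_or_gt t 0 with h | h
  · rw [max_eq_right h, mul_zero, Real.zero_rpow (by linarith)]
  · rw [max_eq_left h.le, abs_of_pos h, mul_assoc, ← pow_two, ← Real.rpow_natCast t 2,
      ← Real.rpow_add h]
    congr 1
    push_cast
    ring

lemma abs_rpow_mul_self (hq : 2 < q) {t : ℝ} (ht : 0 ≤ t) : |t| ^ (q - 2) * t = t ^ (q - 1) := by
  rcases eq_or_lt_of_le ht with h | h
  · rw [← h, mul_zero, Real.zero_rpow (by linarith)]
  · rw [abs_of_pos h, ← Real.rpow_add_one h.ne']
    congr 1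
    ring

lemma sign_aux (hq : 2 < q) {lam1 lam a : ℝ} (ha0 : 0 < a) (ha : a ≤ 1 / 2)
    (hlam1 : 0 < lam1) (h : lam1 * a ^ (2 / q) ≤ lam * a) : 2 ^ (1 - 2 / q) * lam1 ≤ lam := by
  have hq0 : 0 < q := by linarith
  have h1 : a = a ^ (1 - 2 / q) * a ^ (2 / q) := by
    rw [← Real.rpow_add ha0]
    ring_nf
    rw [Real.rpow_one]
  have h2 : 0 < a ^ (2 / q) := Real.rpow_pos_of_pos ha0 _
  have h3 : lam1 ≤ lam * a ^ (1 - 2 / q) := by
    have : lam1 * a ^ (2 / q) ≤ (lam * a ^ (1 - 2 / q)) * a ^ (2 / q) := by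
      calc lam1 * a ^ (2 / q) ≤ lam * a := h
        _ = lam * (a ^ (1 - 2 / q) * a ^ (2 / q)) := by rw [← h1]
        _ = _ := by ring
    exact le_of_mul_le_mul_right this h2
  have hlam0 : 0 < lam := by
    by_contra hcon
    have h5 : lam * a ^ (1 - 2 / q) ≤ 0 :=
      mul_nonpos_of_nonpos_of_nonneg (not_lt.1 hcon) (Real.rpow_nonneg ha0.le _)
    linarith
  have h4 : a ^ (1 - 2 / q) ≤ (1 / 2) ^ (1 - 2 / q) := by
    apply Real.rpow_le_rpow ha0.le ha
    rw [sub_nonneg, div_le_one hq0]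
    exact hq.le
  have h5 : lam1 ≤ lam * (1 / 2) ^ (1 - 2 / q) := h3.trans (mul_le_mul_of_nonneg_left h4 hlam0.le)
  have h6 : (2:ℝ) ^ (1 - 2 / q) * (1 / 2) ^ (1 - 2 / q) = 1 := by
    rw [← Real.mul_rpow (by norm_num) (by norm_num)]
    norm_num
  calc 2 ^ (1 - 2 / q) * lam1 ≤ 2 ^ (1 - 2 / q) * (lam * (1 / 2) ^ (1 - 2 / q)) :=
        mul_le_mul_of_nonneg_left h5 (by positivity)
    _ = lam * (2 ^ (1 - 2 / q) * (1 / 2) ^ (1 - 2 / q)) := by ring
    _ = lam := by rw [h6, mul_one]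

lemma sign_lemma (hq : 2 < q) (hpos : PosProp J) {lam1 : ℝ} (hlam1 : 0 < lam1)
    (hlam : ∀ v : H, lam1 * ‖J v‖ ^ 2 ≤ ‖v‖ ^ 2) {lam : ℝ} (hl : lam < 2 ^ (1 - 2 / q) * lam1)
    {u : H} (hnorm : ∫ x, |J u x| ^ q ∂μ = 1)
    (heqn : ∀ φ : H, ⟪u, φ⟫_ℝ = lam * ∫ x, |J u x| ^ (q - 2) * J u x * J φ x ∂μ) :
    (∀ᵐ x ∂μ, 0 ≤ J u x) ∨ (∀ᵐ x ∂μ, J u x ≤ 0) := by
  have hq0 : 0 < q := by linarith
  set a : ℝ := ∫ x, (max (J u x) 0) ^ q ∂μ with ha
  set b : ℝ := ∫ x, (max (-J u x) 0) ^ q ∂μ with hb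
  have hua : MemLp (fun x => max (J u x) 0) (ENNReal.ofReal q) μ := memLp_posPart (Lp.memLp _)
  have hub : MemLp (fun x => max (-J u x) 0) (ENNReal.ofReal q) μ := memLp_posPart (Lp.memLp _).neg
  have hia := integrable_rpow_of_memLp hq0 hua (fun x => le_max_right _ _)
  have hib := integrable_rpow_of_memLp hq0 hub (fun x => le_max_right _ _)
  have ha0 : 0 ≤ a := integral_nonneg fun x => Real.rpow_nonneg (le_max_right _ _) _
  have hb0 : 0 ≤ b := integral_nonneg fun x => Real.rpow_nonneg (le_max_right _ _) _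
  have hab : a + b = 1 := by
    rw [← hnorm, ha, hb, ← integral_add hia hib]
    refine integral_congr_ae (Eventually.of_forall fun x => ?_)
    simp only
    rcases le_total (J u x) 0 with h | h
    · rw [max_eq_right h, max_eq_left (by linarith), Real.zero_rpow hq0.ne', abs_of_nonpos h, zero_add]
    · rw [max_eq_left h, max_eq_right (by linarith), Real.zero_rpow hq0.ne', abs_of_nonneg h, add_zero]
  have h1 : lam1 * a ^ (2 / q) ≤ lam * a := by
    have := pos_test hq hpos hlam (v := u) (F := fun x => lam * (|J u x| ^ (q - 2) * J u x))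
      (fun φ => by
        rw [heqn φ, ← integral_const_mul]
        refine integral_congr_ae (Eventually.of_forall fun x => ?_)
        simp only
        ring) (EventuallyEq.refl _ _)
    refine this.trans (le_of_eq ?_)
    rw [ha, ← integral_const_mul]
    refine integral_congr_ae (Eventually.of_forall fun x => ?_)
    simp only
    rw [mul_assoc, abs_rpow_mul_pos hq]
  have h2 : lam1 * b ^ (2 / q) ≤ lam * b := by
    have := pos_test hq hpos hlam (v := -u) (F := fun x => -(lam * (|J u x| ^ (q - 2) * J u x)))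
      (g := fun x => - J u x)
      (fun φ => by
        rw [inner_neg_left, heqn φ, ← integral_const_mul, ← integral_neg]
        refine integral_congr_ae (Eventually.of_forall fun x => ?_)
        simp only
        ring) (by
        rw [map_neg]
        exact Lp.coeFn_neg (J u))
    refine this.trans (le_of_eq ?_)
    rw [hb, ← integral_const_mul]
    refine integral_congr_ae (Eventually.of_forall fun x => ?_)
    simp only
    have := abs_rpow_mul_pos hq (-J u x)
    rw [abs_neg] at this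
    rw [← this]
    ring
  rcases eq_or_lt_of_le ha0 with h0 | h0
  · right
    have h3 := (integral_eq_zero_iff_of_nonneg
      (fun x => Real.rpow_nonneg (le_max_right (J u x) 0) q) hia).1 h0.symm
    filter_upwards [h3] with x hx
    have h4 := (Real.rpow_eq_zero (le_max_right (J u x) 0) hq0.ne').1 hx
    rw [← h4]
    exact le_max_left _ _
  rcases eq_or_lt_of_le hb0 with h0' | h0'
  · left
    have h3 := (integral_eq_zero_iff_of_nonneg
      (fun x => Real.rpow_nonneg (le_max_right (-J u x) 0) q) hib).1 h0'.symm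
    filter_upwards [h3] with x hx
    have h4 := (Real.rpow_eq_zero (le_max_right (-J u x) 0) hq0.ne').1 hx
    have h5 : -J u x ≤ 0 := by
      rw [← h4]
      exact le_max_left _ _
    linarith
  exfalso
  rcases le_total a b with h | h
  · have := sign_aux hq h0 (by linarith) hlam1 h1
    linarith
  · have := sign_aux hq h0' (by linarith) hlam1 h2
    linarith

/-- from a normalised eigenvector to a nonnegative solution -/
lemma exists_isSol (hq : 2 < q) (hpos : PosProp J) {lam1 : ℝ} (hlam1 : 0 < lam1)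
    (hlam : ∀ v : H, lam1 * ‖J v‖ ^ 2 ≤ ‖v‖ ^ 2) {lam : ℝ} (hl : lam < 2 ^ (1 - 2 / q) * lam1)
    {u : H} (hnorm : ∫ x, |J u x| ^ q ∂μ = 1)
    (heqn : ∀ φ : H, ⟪u, φ⟫_ℝ = lam * ∫ x, |J u x| ^ (q - 2) * J u x * J φ x ∂μ) :
    ∃ (v : H) (V : X → ℝ), IsSol J lam v V := by
  have main : ∀ v : H, (∀ᵐ x ∂μ, 0 ≤ J v x) → ∫ x, |J v x| ^ q ∂μ = 1 →
      (∀ φ : H, ⟪v, φ⟫_ℝ = lam * ∫ x, |J v x| ^ (q - 2) * J v x * J φ x ∂μ) →
      ∃ V : X → ℝ, IsSol J lam v V := by
    intro v hv hn he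
    have hae : J v =ᵐ[μ] fun x => max (J v x) 0 := by
      filter_upwards [hv] with x hx
      rw [max_eq_left hx]
    refine ⟨fun x => max (J v x) 0, ?_, fun x => le_max_right _ _, hae, ?_, fun φ => ?_⟩
    · exact (meas_J v).max measurable_const
    · rw [← hn]
      refine integral_congr_ae ?_
      filter_upwards [hv] with x hx
      rw [max_eq_left hx, abs_of_nonneg hx]
    · rw [he φ]
      congr 1
      refine integral_congr_ae ?_
      filter_upwards [hv] with x hx
      rw [max_eq_left hx, abs_rpow_mul_self hq hx]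
  rcases sign_lemma hq hpos hlam1 hlam hl hnorm heqn with h | h
  · obtain ⟨V, hV⟩ := main u h hnorm heqn
    exact ⟨u, V, hV⟩
  · have hneg : J (-u) =ᵐ[μ] fun x => - J u x := by
      rw [map_neg]
      exact Lp.coeFn_neg (J u)
    obtain ⟨V, hV⟩ := main (-u) (by
      filter_upwards [h, hneg] with x hx hx2
      rw [hx2]; linarith) (by
      rw [← hnorm]
      refine integral_congr_ae ?_
      filter_upwards [hneg] with x hx
      rw [hx, abs_neg]) (fun φ => by
      rw [inner_neg_left, heqn φ, ← mul_neg, ← integral_neg]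
      congr 1
      refine integral_congr_ae ?_
      filter_upwards [hneg] with x hx
      rw [hx, abs_neg]
      ring)
    exact ⟨-u, V, hV⟩

/-- weak compactness along ultrafilters -/
lemma exists_weak_limit {ι : Type} (𝒰 : Ultrafilter ι) (u : ι → H) {R : ℝ} (hR : ∀ i, ‖u i‖ ≤ R) :
    ∃ w : H, ∀ φ : H, Tendsto (fun i => ⟪u i, φ⟫_ℝ) 𝒰 (𝓝 ⟪w, φ⟫_ℝ) := by
  have hb : ∀ φ : H, ∃ c : ℝ, Tendsto (fun i => ⟪u i, φ⟫_ℝ) 𝒰 (𝓝 c) := by
    intro φ
    have hcpt : IsCompact (Set.Icc (-(R * ‖φ‖)) (R * ‖φ‖)) := isCompact_Icc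
    have hmem : ∀ i, ⟪u i, φ⟫_ℝ ∈ Set.Icc (-(R * ‖φ‖)) (R * ‖φ‖) := by
      intro i
      have h1 := abs_real_inner_le_norm (u i) φ
      have h2 : ‖u i‖ * ‖φ‖ ≤ R * ‖φ‖ := mul_le_mul_of_nonneg_right (hR i) (norm_nonneg _)
      exact abs_le.1 (h1.trans h2)
    obtain ⟨c, _, hc⟩ := hcpt.ultrafilter_le_nhds (𝒰.map fun i => ⟪u i, φ⟫_ℝ)
      (tendsto_principal.2 (Eventually.of_forall hmem))
    exact ⟨c, hc⟩
  choose c hc using hb
  let ℓ : H →ₗ[ℝ] ℝ :=
    { toFun := c
      map_add' := fun φ ψ => by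
        have h1 := (hc φ).add (hc ψ)
        have h2 := hc (φ + ψ)
        simp only [inner_add_right] at h2
        exact tendsto_nhds_unique h2 h1
      map_smul' := fun r φ => by
        have h1 := (hc φ).const_mul r
        have h2 := hc (r • φ)
        simp only [real_inner_smul_right] at h2
        exact tendsto_nhds_unique h2 h1 }
  have hRc : ∀ φ, ‖ℓ φ‖ ≤ R * ‖φ‖ := by
    intro φ
    have h1 : Tendsto (fun i => ‖⟪u i, φ⟫_ℝ‖) 𝒰 (𝓝 ‖c φ‖) := (hc φ).norm
    refine le_of_tendsto h1 (Eventually.of_forall fun i => ?_)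
    have h1 := abs_real_inner_le_norm (u i) φ
    have h2 : ‖u i‖ * ‖φ‖ ≤ R * ‖φ‖ := mul_le_mul_of_nonneg_right (hR i) (norm_nonneg _)
    exact h1.trans h2
  let ℓc : H →L[ℝ] ℝ := ℓ.mkContinuous R hRc
  refine ⟨(InnerProductSpace.toDual ℝ H).symm ℓc, fun φ => ?_⟩
  rw [InnerProductSpace.toDual_symm_apply]
  exact hc φ

lemma compact_limit {ι : Type} (𝒰 : Ultrafilter ι) (u : ι → H) {R : ℝ} (hR : ∀ i, ‖u i‖ ≤ R)
    (hJ : IsCompactOperator J) {w : H}
    (hw : ∀ φ : H, Tendsto (fun i => ⟪u i, φ⟫_ℝ) 𝒰 (𝓝 ⟪w, φ⟫_ℝ)) :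
    Tendsto (fun i => J (u i)) 𝒰 (𝓝 (J w)) := by
  obtain ⟨K, hK, hK'⟩ := hJ.image_closedBall_subset_compact R
  obtain ⟨g, _, hg⟩ := hK.ultrafilter_le_nhds (𝒰.map fun i => J (u i))
    (tendsto_principal.2 (Eventually.of_forall fun i => hK' ⟨u i, by simpa using hR i, rfl⟩))
  have hg' : Tendsto (fun i => J (u i)) 𝒰 (𝓝 g) := hg
  have hgw : g = J w := by
    apply (SeparatingDual.eq_iff_forall_dual_eq (R := ℝ)).2
    intro ℓ
    have h1 : Tendsto (fun i => ℓ (J (u i))) 𝒰 (𝓝 (ℓ g)) := (ℓ.continuous.tendsto g).comp hg'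
    set z : H := (InnerProductSpace.toDual ℝ H).symm (ℓ.comp J) with hz
    have h2 : ∀ v : H, ℓ (J v) = ⟪v, z⟫_ℝ := by
      intro v
      rw [real_inner_comm, hz, InnerProductSpace.toDual_symm_apply]
      rfl
    simp only [h2] at h1
    rw [h2]
    exact tendsto_nhds_unique h1 (hw z)
  rwa [← hgw]

/-- **The limit of solutions is a solution.** -/
lemma limit_lemma (hq : 2 < q) {lam1 Λ : ℝ} {ι : Type} (𝒰 : Ultrafilter ι) (lam : ι → ℝ) (u : ι → H)
    (U : ι → X → ℝ) (hsol : ∀ i, IsSol J (lam i) (u i) (U i)) (hl : Tendsto lam 𝒰 (𝓝 lam1))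
    (hJ : IsCompactOperator J) (hbd : ∀ i, lam i ≤ Λ) :
    ∃ (w : H) (W : X → ℝ), IsSol J lam1 w W ∧
      Tendsto (fun i => ∫ x, |U i x - W x| ^ q ∂μ) 𝒰 (𝓝 0) := by
  have hq0 : 0 < q := by linarith
  -- norms
  have hnorm : ∀ i, ‖u i‖ ^ 2 = lam i := by
    intro i
    rw [← real_inner_self_eq_norm_sq, (hsol i).eqn]
    have : ∫ x, U i x ^ (q - 1) * J (u i) x ∂μ = ∫ x, U i x ^ q ∂μ := by
      refine integral_congr_ae ?_
      filter_upwards [(hsol i).ae_eq] with x hx
      rw [hx]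
      rcases eq_or_lt_of_le ((hsol i).nonneg x) with h | h
      · rw [← h, mul_zero, Real.zero_rpow hq0.ne']
      · rw [← Real.rpow_add_one h.ne', sub_add_cancel]
    rw [this, (hsol i).int_one, mul_one]
  have hR : ∀ i, ‖u i‖ ≤ Real.sqrt Λ := by
    intro i
    apply Real.le_sqrt_of_sq_le
    rw [hnorm i]
    exact hbd i
  obtain ⟨w, hw⟩ := exists_weak_limit 𝒰 u hR
  have hJw := compact_limit 𝒰 u hR hJ hw
  have hnJ : ∀ i, ‖J (u i)‖ = 1 := by
    intro i
    rw [norm_Lp_eq hq0]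
    have : ∫ x, |J (u i) x| ^ q ∂μ = ∫ x, U i x ^ q ∂μ := by
      refine integral_congr_ae ?_
      filter_upwards [(hsol i).ae_eq] with x hx
      rw [hx, abs_of_nonneg ((hsol i).nonneg x)]
    rw [this, (hsol i).int_one, Real.one_rpow]
  set W : X → ℝ := fun x => max (J w x) 0 with hW
  have hWm : Measurable W := (meas_J w).max measurable_const
  have hW0 : ∀ x, 0 ≤ W x := fun x => le_max_right _ _
  have hWL : MemLp W (ENNReal.ofReal q) μ := memLp_posPart (Lp.memLp _)
  -- L^q convergence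
  have hconv0 : Tendsto (fun i => ∫ x, |J (u i) x - J w x| ^ q ∂μ) 𝒰 (𝓝 0) := by
    have h1 : Tendsto (fun i => ‖J (u i) - J w‖ ^ q) 𝒰 (𝓝 0) := by
      have h2 : Tendsto (fun i => ‖J (u i) - J w‖) 𝒰 (𝓝 0) :=
        tendsto_iff_norm_sub_tendsto_zero.1 hJw
      have h3 := h2.rpow_const (p := q) (Or.inr hq0.le)
      rwa [Real.zero_rpow hq0.ne'] at h3
    refine h1.congr fun i => ?_
    rw [norm_Lp_rpow hq0]
    refine integral_congr_ae ?_
    filter_upwards [Lp.coeFn_sub (J (u i)) (J w)] with x hx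
    rw [hx]
    rfl
  have hUL : ∀ i, MemLp (U i) (ENNReal.ofReal q) μ := fun i => (hsol i).memLp
  have hle : ∀ i, ∫ x, |U i x - W x| ^ q ∂μ ≤ ∫ x, |J (u i) x - J w x| ^ q ∂μ := by
    intro i
    refine integral_mono_ae (integrable_rpow_of_memLp hq0 ((hUL i).sub hWL).norm
      fun x => abs_nonneg _) (integrable_rpow_of_memLp hq0
      ((Lp.memLp (J (u i))).sub (Lp.memLp (J w))).norm fun x => abs_nonneg _) ?_
    filter_upwards [(hsol i).ae_eq] with x hx
    apply Real.rpow_le_rpow (abs_nonneg _) _ hq0.le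
    rw [hx]
    have h1 : U i x = max (U i x) 0 := (max_eq_left ((hsol i).nonneg x)).symm
    calc |U i x - W x| = |max (U i x) 0 - max (J w x) 0| := by rw [← h1]
      _ ≤ |U i x - J w x| := abs_max_sub_max_le_abs _ _ _
  have hconv : Tendsto (fun i => ∫ x, |U i x - W x| ^ q ∂μ) 𝒰 (𝓝 0) :=
    squeeze_zero (fun i => integral_nonneg fun x => Real.rpow_nonneg (abs_nonneg _) _) hle hconv0
  -- `J w = W`
  have hJWae : J w =ᵐ[μ] W := by
    have hneg : ∀ i, ∫ x, (max (-J w x) 0) ^ q ∂μ ≤ ∫ x, |J (u i) x - J w x| ^ q ∂μ := by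
      intro i
      refine integral_mono_ae (integrable_rpow_of_memLp hq0 (memLp_posPart (Lp.memLp (J w)).neg)
        fun x => le_max_right _ _) (integrable_rpow_of_memLp hq0
        ((Lp.memLp (J (u i))).sub (Lp.memLp (J w))).norm fun x => abs_nonneg _) ?_
      filter_upwards [(hsol i).ae_eq] with x hx
      apply Real.rpow_le_rpow (le_max_right _ _) _ hq0.le
      rw [hx]
      apply max_le _ (abs_nonneg _)
      have := (hsol i).nonneg x
      have h2 := le_abs_self (U i x - J w x)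
      linarith
    have h0 : ∫ x, (max (-J w x) 0) ^ q ∂μ = 0 :=
      le_antisymm (ge_of_tendsto hconv0 (Eventually.of_forall hneg))
        (integral_nonneg fun x => Real.rpow_nonneg (le_max_right _ _) _)
    have h1 := (integral_eq_zero_iff_of_nonneg
      (fun x => Real.rpow_nonneg (le_max_right (-J w x) 0) q)
      (integrable_rpow_of_memLp hq0 (memLp_posPart (Lp.memLp (J w)).neg)
        fun x => le_max_right _ _)).1 h0
    filter_upwards [h1] with x hx
    have h4 := (Real.rpow_eq_zero (le_max_right (-J w x) 0) hq0.ne').1 hx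
    have h5 : -J w x ≤ 0 := by
      rw [← h4]
      exact le_max_left _ _
    rw [hW]
    exact (max_eq_left (by linarith)).symm
  have hnJw : ‖J w‖ = 1 := by
    have h1 : Tendsto (fun i => ‖J (u i)‖) 𝒰 (𝓝 ‖J w‖) := hJw.norm
    simp only [hnJ] at h1
    exact tendsto_nhds_unique h1 tendsto_const_nhds
  have hint1 : ∫ x, W x ^ q ∂μ = 1 := by
    have h1 := norm_Lp_rpow hq0 (J w)
    rw [hnJw, Real.one_rpow] at h1
    rw [h1]
    refine integral_congr_ae ?_
    filter_upwards [hJWae] with x hx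
    rw [hx, abs_of_nonneg (hW0 x)]
  -- convergence of the nonlinear term
  have hnl : ∀ φ : H, Tendsto (fun i => ∫ x, U i x ^ (q - 1) * J φ x ∂μ) 𝒰
      (𝓝 (∫ x, W x ^ (q - 1) * J φ x ∂μ)) := by
    intro φ
    rw [tendsto_iff_norm_sub_tendsto_zero]
    set P : ℝ := ∫ x, |J φ x| ^ q ∂μ with hP
    have hP0 : 0 ≤ P := integral_nonneg fun x => Real.rpow_nonneg (abs_nonneg _) _
    have hφL : MemLp (fun x => |J φ x|) (ENNReal.ofReal q) μ := (Lp.memLp (J φ)).norm
    -- bound of the sum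
    have hM : ∀ i, ∫ x, (U i x + W x) ^ q ∂μ ≤ 2 ^ q * 2 := by
      intro i
      have hi1 := integrable_rpow_of_memLp hq0 (hUL i) (hsol i).nonneg
      have hi2 := integrable_rpow_of_memLp hq0 hWL hW0
      calc ∫ x, (U i x + W x) ^ q ∂μ ≤ ∫ x, 2 ^ q * (U i x ^ q + W x ^ q) ∂μ := by
            refine integral_mono (integrable_rpow_of_memLp hq0 ((hUL i).add hWL)
              fun x => add_nonneg ((hsol i).nonneg x) (hW0 x)) ((hi1.add hi2).const_mul _) fun x => ?_
            simp only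
            have a1 := (hsol i).nonneg x
            have a2 := hW0 x
            have b1 := Real.rpow_nonneg a1 q
            have b2 := Real.rpow_nonneg a2 q
            rcases le_total (U i x) (W x) with h | h
            · calc (U i x + W x) ^ q ≤ (2 * W x) ^ q :=
                    Real.rpow_le_rpow (add_nonneg a1 a2) (by linarith) hq0.le
                _ = 2 ^ q * W x ^ q := Real.mul_rpow (by norm_num) a2
                _ ≤ _ := mul_le_mul_of_nonneg_left (by linarith) (by positivity)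
            · calc (U i x + W x) ^ q ≤ (2 * U i x) ^ q :=
                    Real.rpow_le_rpow (add_nonneg a1 a2) (by linarith) hq0.le
                _ = 2 ^ q * U i x ^ q := Real.mul_rpow (by norm_num) a1
                _ ≤ _ := mul_le_mul_of_nonneg_left (by linarith) (by positivity)
        _ = 2 ^ q * (1 + 1) := by
            rw [integral_const_mul, integral_add hi1 hi2, (hsol i).int_one, hint1]
        _ = 2 ^ q * 2 := by norm_num
    set Cφ : ℝ := (q - 1) * ((2 ^ q * 2) ^ ((q - 1) / q) + P ^ ((q - 1) / q)) with hCφ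
    have hbound : ∀ i, ‖∫ x, U i x ^ (q - 1) * J φ x ∂μ - ∫ x, W x ^ (q - 1) * J φ x ∂μ‖ ≤
        Cφ * (∫ x, |U i x - W x| ^ q ∂μ) ^ (1 / q) := by
      intro i
      have hDL : MemLp (fun x => |U i x - W x|) (ENNReal.ofReal q) μ := ((hUL i).sub hWL).norm
      have hML : MemLp (fun x => U i x + W x) (ENNReal.ofReal q) μ := (hUL i).add hWL
      have hM0 : ∀ x, 0 ≤ U i x + W x := fun x => add_nonneg ((hsol i).nonneg x) (hW0 x)
      have k1 := holder_weight hq hML hDL hM0 (fun x => abs_nonneg _)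
      have k2 := holder_weight hq hφL hDL (fun x => abs_nonneg _) (fun x => abs_nonneg _)
      rw [← integral_sub (integrable_pow_mul_J hq (hUL i) (hsol i).nonneg φ)
        (integrable_pow_mul_J hq hWL hW0 φ)]
      calc ‖∫ x, (U i x ^ (q - 1) * J φ x - W x ^ (q - 1) * J φ x) ∂μ‖
          ≤ ∫ x, ‖U i x ^ (q - 1) * J φ x - W x ^ (q - 1) * J φ x‖ ∂μ := norm_integral_le_integral_norm _
        _ ≤ ∫ x, ((q - 1) * ((U i x + W x) ^ (q - 1) * |U i x - W x|) +
            (q - 1) * (|J φ x| ^ (q - 1) * |U i x - W x|)) ∂μ := by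
            refine integral_mono ((integrable_pow_mul_J hq (hUL i) (hsol i).nonneg φ).sub
              (integrable_pow_mul_J hq hWL hW0 φ)).norm ((k1.1.const_mul _).add
              (k2.1.const_mul _)) fun x => ?_
            simp only
            rw [← sub_mul, norm_mul, Real.norm_eq_abs, Real.norm_eq_abs]
            have e1 := rpow_sub_le (p := q - 1) (by linarith) ((hsol i).nonneg x) (hW0 x)
            have e2 := young_simple hq (hM0 x) (abs_nonneg (J φ x))
            calc |U i x ^ (q - 1) - W x ^ (q - 1)| * |J φ x|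
                ≤ (q - 1) * |U i x - W x| * (U i x + W x) ^ (q - 1 - 1) * |J φ x| :=
                  mul_le_mul_of_nonneg_right e1 (abs_nonneg _)
              _ = (q - 1) * |U i x - W x| * ((U i x + W x) ^ (q - 1 - 1) * |J φ x|) := by ring
              _ ≤ (q - 1) * |U i x - W x| * ((U i x + W x) ^ (q - 1) + |J φ x| ^ (q - 1)) :=
                  mul_le_mul_of_nonneg_left e2 (mul_nonneg (by linarith) (abs_nonneg _))
              _ = _ := by ring
        _ = (q - 1) * ∫ x, (U i x + W x) ^ (q - 1) * |U i x - W x| ∂μ +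
            (q - 1) * ∫ x, |J φ x| ^ (q - 1) * |U i x - W x| ∂μ := by
            rw [integral_add (k1.1.const_mul _) (k2.1.const_mul _), integral_const_mul,
              integral_const_mul]
        _ ≤ (q - 1) * ((2 ^ q * 2) ^ ((q - 1) / q) * (∫ x, |U i x - W x| ^ q ∂μ) ^ (1 / q)) +
            (q - 1) * (P ^ ((q - 1) / q) * (∫ x, |U i x - W x| ^ q ∂μ) ^ (1 / q)) := by
            have hi0 : 0 ≤ (∫ x, |U i x - W x| ^ q ∂μ) ^ (1 / q) :=
              Real.rpow_nonneg (integral_nonneg fun x => Real.rpow_nonneg (abs_nonneg _) _) _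
            have f1 : (∫ x, (U i x + W x) ^ q ∂μ) ^ ((q - 1) / q) ≤ (2 ^ q * 2) ^ ((q - 1) / q) :=
              Real.rpow_le_rpow (integral_nonneg fun x => Real.rpow_nonneg (hM0 x) _) (hM i)
                (div_nonneg (by linarith) hq0.le)
            have f2 := k1.2.trans (mul_le_mul_of_nonneg_right f1 hi0)
            exact add_le_add (mul_le_mul_of_nonneg_left f2 (by linarith))
              (mul_le_mul_of_nonneg_left k2.2 (by linarith))
        _ = Cφ * (∫ x, |U i x - W x| ^ q ∂μ) ^ (1 / q) := by rw [hCφ]; ring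
    have hlim : Tendsto (fun i => Cφ * (∫ x, |U i x - W x| ^ q ∂μ) ^ (1 / q)) 𝒰 (𝓝 0) := by
      have h1 := (hconv.rpow_const (p := 1 / q) (Or.inr (by positivity))).const_mul Cφ
      rwa [Real.zero_rpow (by positivity), mul_zero] at h1
    exact squeeze_zero (fun i => norm_nonneg _) hbound hlim
  refine ⟨w, W, ⟨hWm, hW0, hJWae, hint1, fun φ => ?_⟩, hconv⟩
  have h1 : Tendsto (fun i => ⟪u i, φ⟫_ℝ) 𝒰 (𝓝 (lam1 * ∫ x, W x ^ (q - 1) * J φ x ∂μ)) := by
    have h2 := hl.mul (hnl φ)
    refine h2.congr fun i => ?_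
    rw [(hsol i).eqn]
  exact tendsto_nhds_unique (hw φ) h1

end

end Pool.Agent.Hhelper23.LE
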