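import Pool.Agent.Hhelper23.LE.Trunc

set_option autoImplicit false
set_option linter.unusedSectionVars false

open Filter Topology MeasureTheory
open scoped InnerProductSpace

namespace Pool.Agent.Hhelper23.LE

section
variable {X : Type} [MeasurableSpace X] {μ : Measure X} {q : ℝ} [Fact (1 ≤ ENNReal.ofReal q)]

lemma nl_integrable (hq : 2 < q) (g f : Lp ℝ (ENNReal.ofReal q) μ) :
    Integrable (fun x => |g x| ^ (q - 2) * g x * f x) μ := by
  have h1 := (holder_weight hq (Lp.memLp g).norm (Lp.memLp f).norm (fun x => norm_nonneg _)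
    (fun x => norm_nonneg _)).1
  have hgm : Measurable (g : X → ℝ) := (Lp.stronglyMeasurable g).measurable
  have hfm : Measurable (f : X → ℝ) := (Lp.stronglyMeasurable f).measurable
  refine h1.mono ((((hgm.norm).pow_const (q - 2)).mul hgm).mul hfm).aestronglyMeasurable
    (Eventually.of_forall fun x => ?_)
  rw [norm_mul, norm_mul, norm_mul, norm_norm, Real.norm_eq_abs, Real.norm_eq_abs,
    Real.norm_eq_abs, Real.norm_eq_abs]
  have e1 := abs_rpow_mul_self hq (abs_nonneg (g x))
  rw [abs_abs] at e1
  rw [abs_of_nonneg (Real.rpow_nonneg (abs_nonneg (g x)) (q - 2)), e1,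
    abs_of_nonneg (Real.rpow_nonneg (abs_nonneg (g x)) (q - 1))]

lemma nl_continuous (hq : 2 < q) (g : Lp ℝ (ENNReal.ofReal q) μ) :
    Continuous (fun f : Lp ℝ (ENNReal.ofReal q) μ => ∫ x, |g x| ^ (q - 2) * g x * f x ∂μ) := by
  have hq0 : 0 < q := by linarith
  let ℓ : Lp ℝ (ENNReal.ofReal q) μ →ₗ[ℝ] ℝ :=
    { toFun := fun f => ∫ x, |g x| ^ (q - 2) * g x * f x ∂μ
      map_add' := fun f h => by
        rw [← integral_add (nl_integrable hq g f) (nl_integrable hq g h)]
        refine integral_congr_ae ?_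
        filter_upwards [Lp.coeFn_add f h] with x hx
        rw [hx, Pi.add_apply]
        ring
      map_smul' := fun r f => by
        rw [RingHom.id_apply, smul_eq_mul, ← integral_const_mul]
        refine integral_congr_ae ?_
        filter_upwards [Lp.coeFn_smul r f] with x hx
        rw [hx, Pi.smul_apply, smul_eq_mul]
        ring }
  have hb : ∀ f, ‖ℓ f‖ ≤ (∫ x, |g x| ^ q ∂μ) ^ ((q - 1) / q) * ‖f‖ := by
    intro f
    have h1 := holder_weight hq (Lp.memLp g).norm (Lp.memLp f).norm (fun x => norm_nonneg _)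
      (fun x => norm_nonneg _)
    rw [norm_Lp_eq hq0]
    refine le_trans (norm_integral_le_integral_norm _) (le_trans (le_of_eq ?_) h1.2)
    refine integral_congr_ae (Eventually.of_forall fun x => ?_)
    simp only
    rw [norm_mul, norm_mul, Real.norm_eq_abs, Real.norm_eq_abs, Real.norm_eq_abs]
    have e1 := abs_rpow_mul_self hq (abs_nonneg (g x))
    rw [abs_abs] at e1
    rw [abs_of_nonneg (Real.rpow_nonneg (abs_nonneg (g x)) (q - 2)), e1]
  exact (ℓ.mkContinuous _ hb).continuous

end

end Pool.Agent.Hhelper23.LE
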