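import Pool.Agent.Hhelper23.LE.Rep
import Pool.Agent.Hhelper23.LE.LInf

set_option autoImplicit false
set_option linter.unusedSectionVars false

open Filter Topology MeasureTheory
open scoped InnerProductSpace ENNReal

namespace Pool.Agent.Hhelper23.LE

section
variable {X : Type} [MeasurableSpace X] {μ : Measure X} {q : ℝ}
variable [Fact (1 ≤ ENNReal.ofReal q)] {H : Type} [NormedAddCommGroup H] [InnerProductSpace ℝ H]
  [CompleteSpace H] {J : H →L[ℝ] Lp ℝ (ENNReal.ofReal q) μ}

/-- all standing hypotheses -/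
structure Setting (J : H →L[ℝ] Lp ℝ (ENNReal.ofReal q) μ) (lam1 : ℝ) (w₀ : H) (W : X → ℝ) :
    Prop where
  hq : 2 < q
  hpos : PosProp J
  hlam1 : 0 < lam1
  hlam : ∀ v : H, lam1 * ‖J v‖ ^ 2 ≤ ‖v‖ ^ 2
  hw : IsSol J lam1 w₀ W
  hJ : IsCompactOperator J

/-- the restriction of `μ` to the positivity set -/
noncomputable abbrev kap (μ : Measure X) (W : X → ℝ) : Measure X := μ.restrict {x | 0 < W x}

variable {lam1 : ℝ} {w₀ : H} {W : X → ℝ}

lemma Setting.measSet (S : Setting J lam1 w₀ W) : MeasurableSet {x | 0 < W x} :=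
  measurableSet_lt measurable_const S.hw.meas

lemma Setting.ae_kap (S : Setting J lam1 w₀ W) {P : X → Prop} :
    (∀ᵐ x ∂(kap μ W), P x) ↔ ∀ᵐ x ∂μ, 0 < W x → P x := ae_restrict_iff' S.measSet

lemma Setting.ae_pos (S : Setting J lam1 w₀ W) : ∀ᵐ x ∂(kap μ W), 0 < W x :=
  S.ae_kap.2 (Eventually.of_forall fun _ h => h)

lemma isRep_congr (hq : 2 < q) (hW0 : ∀ x, 0 ≤ W x) {f g : X → ℝ}
    (h : ∀ᵐ x ∂μ, 0 < W x → f x = g x) {v : H} (hv : IsRep J lam1 W f v) : IsRep J lam1 W g v := by
  intro φ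
  rw [hv φ]
  congr 1
  refine integral_congr_ae ?_
  filter_upwards [h] with x hx
  rcases eq_or_lt_of_le (hW0 x) with h0 | h0
  · rw [← h0, Real.zero_rpow (by linarith)]
    simp
  · rw [hx h0]

lemma isRep_unique {f : X → ℝ} {v v' : H} (hv : IsRep J lam1 W f v) (hv' : IsRep J lam1 W f v') :
    v = v' := by
  apply ext_inner_right ℝ
  intro φ
  rw [hv φ, hv' φ]

/-- real part of the representative -/
noncomputable def fre {ν : Measure X} (f : LInf ν) : X → ℝ := fun x => (LInf.fn f x).re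

lemma measurable_fre {ν : Measure X} (f : LInf ν) : Measurable (fre f) :=
  Complex.measurable_re.comp (LInf.measurable_fn f)

lemma Setting.fre_bound (S : Setting J lam1 w₀ W) (f : LInf (kap μ W)) :
    ∀ᵐ x ∂μ, 0 < W x → |fre f x| ≤ ‖f‖ := by
  rw [← S.ae_kap]
  filter_upwards [LInf.ae_norm_le f] with x hx
  exact (Complex.abs_re_le_norm _).trans hx

lemma IsRep.add' (S : Setting J lam1 w₀ W) {f g : X → ℝ} (hf : Measurable f) (hg : Measurable g)
    {M N : ℝ} (hM : ∀ᵐ x ∂μ, 0 < W x → |f x| ≤ M) (hN : ∀ᵐ x ∂μ, 0 < W x → |g x| ≤ N)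
    {v v' : H} (hv : IsRep J lam1 W f v) (hv' : IsRep J lam1 W g v') :
    IsRep J lam1 W (fun x => f x + g x) (v + v') := by
  intro φ
  have h1 := integrable_wf S.hq S.hw hf hM (meas_J (J := J) φ) (Lp.memLp (J φ))
  have h2 := integrable_wf S.hq S.hw hg hN (meas_J (J := J) φ) (Lp.memLp (J φ))
  rw [inner_add_left, hv φ, hv' φ, ← mul_add, ← integral_add h1 h2]
  congr 1
  refine integral_congr_ae (Eventually.of_forall fun x => ?_)
  simp only
  ring

lemma IsRep.smul' {f : X → ℝ} {v : H} (hv : IsRep J lam1 W f v) (c : ℝ) :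
    IsRep J lam1 W (fun x => c * f x) (c • v) := by
  intro φ
  rw [real_inner_smul_left, hv φ, ← mul_assoc, mul_comm c lam1, mul_assoc, ← integral_const_mul c]
  congr 1
  refine integral_congr_ae (Eventually.of_forall fun x => ?_)
  simp only
  ring

theorem exists_Tr (S : Setting J lam1 w₀ W) :
    ∃ Tr : LInf (kap μ W) →L[ℝ] LInf (kap μ W), IsCompactOperator Tr ∧
      ∀ (f : LInf (kap μ W)) (v : H), IsRep J lam1 W (fre f) v →
        LInf.fn (Tr f) =ᵐ[kap μ W] fun x => ((J v x / W x : ℝ) : ℂ) := by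
  have hex : ∀ f : LInf (kap μ W), ∃ v : H, IsRep J lam1 W (fre f) v ∧ ‖v‖ ≤ lam1 * ‖f‖ * ‖J‖ :=
    fun f => rep_exists S.hq S.hlam1 S.hw (measurable_fre f) (S.fre_bound f) (norm_nonneg _)
  choose R hR hRn using hex
  have hRadd : ∀ f g, R (f + g) = R f + R g := by
    intro f g
    apply isRep_unique (hR (f + g))
    refine isRep_congr S.hq S.hw.nonneg ?_ (IsRep.add' S (measurable_fre f) (measurable_fre g)
      (S.fre_bound f) (S.fre_bound g) (hR f) (hR g))
    rw [← S.ae_kap]
    filter_upwards [LInf.fn_add f g] with x hx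
    simp only [fre]
    rw [hx, Complex.add_re]
  have hRsmul : ∀ (c : ℝ) (f), R (c • f) = c • R f := by
    intro c f
    apply isRep_unique (hR (c • f))
    refine isRep_congr S.hq S.hw.nonneg ?_ ((hR f).smul' c)
    rw [← S.ae_kap]
    have h1 : c • f = (c : ℂ) • f := rfl
    rw [h1]
    filter_upwards [LInf.fn_smul (c : ℂ) f] with x hx
    simp only [fre]
    rw [hx, Complex.re_ofReal_mul]
  have hRb : ∀ f, ∀ᵐ x ∂μ, |J (R f) x| ≤ ‖f‖ * W x := fun f =>
    (hR f).bdd S.hq S.hpos S.hlam1 S.hlam S.hw (measurable_fre f) (S.fre_bound f)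
  have hTb : ∀ f, ∀ᵐ x ∂(kap μ W), ‖((J (R f) x / W x : ℝ) : ℂ)‖ ≤ ‖f‖ := by
    intro f
    rw [S.ae_kap]
    filter_upwards [hRb f] with x hx hpos
    rw [Complex.norm_real, Real.norm_eq_abs, abs_div, abs_of_pos hpos, div_le_iff₀ hpos]
    exact hx
  have hTm : ∀ f, AEStronglyMeasurable (fun x => ((J (R f) x / W x : ℝ) : ℂ)) (kap μ W) := fun f =>
    (Complex.measurable_ofReal.comp ((meas_J (R f)).div S.hw.meas)).aestronglyMeasurable
  set T0 : LInf (kap μ W) → LInf (kap μ W) := fun f =>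
    LInf.mk (fun x => ((J (R f) x / W x : ℝ) : ℂ)) (LInf.memLp_of_bound (hTm f) ‖f‖ (hTb f)) with hT0
  have hT0fn : ∀ f, LInf.fn (T0 f) =ᵐ[kap μ W] fun x => ((J (R f) x / W x : ℝ) : ℂ) :=
    fun f => LInf.fn_mk _ _
  let Tl : LInf (kap μ W) →ₗ[ℝ] LInf (kap μ W) :=
    { toFun := T0
      map_add' := fun f g => LInf.ext (by
        have h1 : ∀ᵐ x ∂(kap μ W), J (R (f + g)) x = J (R f) x + J (R g) x := by
          rw [hRadd, map_add]
          exact ae_restrict_of_ae (Lp.coeFn_add (J (R f)) (J (R g)))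
        filter_upwards [hT0fn (f + g), hT0fn f, hT0fn g, LInf.fn_add (T0 f) (T0 g), h1]
          with x a b c d e
        rw [a, d, b, c, e]
        push_cast
        ring)
      map_smul' := fun r f => LInf.ext (by
        have h1 : ∀ᵐ x ∂(kap μ W), J (R (r • f)) x = r * J (R f) x := by
          rw [hRsmul, map_smul]
          exact ae_restrict_of_ae (Lp.coeFn_smul r (J (R f)))
        have h2 : (RingHom.id ℝ) r • T0 f = (r : ℂ) • T0 f := rfl
        rw [h2]
        filter_upwards [hT0fn (r • f), hT0fn f, LInf.fn_smul (r : ℂ) (T0 f), h1]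
          with x a b c d
        rw [a, c, b, d]
        push_cast
        ring) }
  have hTnorm : ∀ f, ‖Tl f‖ ≤ 1 * ‖f‖ := by
    intro f
    rw [one_mul]
    refine LInf.norm_le (norm_nonneg _) ?_
    filter_upwards [hT0fn f, hTb f] with x a b
    show ‖LInf.fn (T0 f) x‖ ≤ ‖f‖
    rw [a]
    exact b
  let Tr : LInf (kap μ W) →L[ℝ] LInf (kap μ W) := Tl.mkContinuous 1 hTnorm
  have hTrapp : ∀ f, Tr f = T0 f := fun f => rfl
  refine ⟨Tr, ?_, ?_⟩
  · -- compactness
    have htb : TotallyBounded (Tr '' Metric.closedBall 0 1) := by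
      rw [Metric.totallyBounded_iff]
      intro ε hε
      obtain ⟨δ, hδ, hsmall⟩ := rep_small S.hq S.hpos S.hlam1 S.hlam S.hw (M := 2) (by norm_num)
        (η := ε / 2) (by positivity)
      obtain ⟨K, hK, hK'⟩ := S.hJ.image_closedBall_subset_compact (lam1 * ‖J‖)
      have hsub : (fun f => J (R f)) '' Metric.closedBall 0 1 ⊆ K := by
        rintro _ ⟨f, hf, rfl⟩
        apply hK'
        refine ⟨R f, ?_, rfl⟩
        rw [mem_closedBall_zero_iff] at hf ⊢
        refine (hRn f).trans ?_
        have := S.hlam1.le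
        calc lam1 * ‖f‖ * ‖J‖ ≤ lam1 * 1 * ‖J‖ := by gcongr
          _ = lam1 * ‖J‖ := by ring
      have htb1 : TotallyBounded ((fun f => J (R f)) '' Metric.closedBall (0 : LInf (kap μ W)) 1) :=
        hK.totallyBounded.subset hsub
      obtain ⟨t, htsub, htfin, htcov⟩ := Metric.finite_approx_of_totallyBounded htb1 δ hδ
      have hch : ∀ y : Lp ℝ (ENNReal.ofReal q) μ, ∃ f : LInf (kap μ W), y ∈ t →
          f ∈ Metric.closedBall (0 : LInf (kap μ W)) 1 ∧ J (R f) = y := by
        intro y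
        by_cases hy : y ∈ t
        · obtain ⟨f, hf, hfy⟩ := htsub hy
          exact ⟨f, fun _ => ⟨hf, hfy⟩⟩
        · exact ⟨0, fun h => absurd h hy⟩
      choose F hF using hch
      refine ⟨(fun y => Tr (F y)) '' t, htfin.image _, ?_⟩
      rintro _ ⟨f, hf, rfl⟩
      have h1 : J (R f) ∈ (fun f => J (R f)) '' Metric.closedBall (0 : LInf (kap μ W)) 1 :=
        ⟨f, hf, rfl⟩
      obtain ⟨y, hy, hyb⟩ := Set.mem_iUnion₂.1 (htcov h1)
      obtain ⟨hFy1, hFy2⟩ := hF y hy
      rw [Set.mem_iUnion₂]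
      refine ⟨Tr (F y), ⟨y, hy, rfl⟩, ?_⟩
      rw [mem_ball_iff_norm, ← map_sub]
      have hRsub : R (f - F y) = R f - R (F y) := by
        have h2 := hRadd (f - F y) (F y)
        rw [sub_add_cancel] at h2
        exact eq_sub_of_add_eq h2.symm
      have hnorm2 : ‖f - F y‖ ≤ 2 := by
        rw [mem_closedBall_zero_iff] at hf hFy1
        calc ‖f - F y‖ ≤ ‖f‖ + ‖F y‖ := norm_sub_le _ _
          _ ≤ 2 := by linarith
      have h3 := hsmall (fre (f - F y)) (R (f - F y)) (measurable_fre _) (by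
        filter_upwards [S.fre_bound (f - F y)] with x hx hp
        exact (hx hp).trans hnorm2) (hR _) (by
        rw [hRsub, map_sub, hFy2]
        rw [mem_ball_iff_norm] at hyb
        exact hyb.le)
      have h4 : ‖Tr (f - F y)‖ ≤ ε / 2 := by
        refine LInf.norm_le (by positivity) ?_
        rw [hTrapp]
        have h5 : ∀ᵐ x ∂(kap μ W), |J (R (f - F y)) x| ≤ ε / 2 * W x := ae_restrict_of_ae h3
        filter_upwards [hT0fn (f - F y), h5, S.ae_pos] with x a b c
        rw [a, Complex.norm_real, Real.norm_eq_abs, abs_div, abs_of_pos c, div_le_iff₀ c]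
        exact b
      linarith
    refine ⟨closure (Tr '' Metric.closedBall 0 1), ?_, ?_⟩
    · exact htb.closure.isCompact_of_isClosed isClosed_closure
    · refine mem_of_superset (Metric.closedBall_mem_nhds 0 one_pos) fun f hf => ?_
      exact subset_closure ⟨f, hf, rfl⟩
  · intro f v hv
    rw [hTrapp]
    have : v = R f := isRep_unique hv (hR f)
    rw [this]
    exact hT0fn f

/-- class of a real bounded function -/
noncomputable def ofr {ν : Measure X} (r : X → ℝ) (hr : Measurable r) (C : ℝ)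
    (h : ∀ᵐ x ∂ν, |r x| ≤ C) : LInf ν :=
  LInf.mk (fun x => ((r x : ℝ) : ℂ)) (LInf.memLp_of_bound
    (Complex.measurable_ofReal.comp hr).aestronglyMeasurable C (by
      filter_upwards [h] with x hx
      rw [Complex.norm_real]
      exact hx))

lemma fn_ofr {ν : Measure X} (r : X → ℝ) (hr : Measurable r) (C : ℝ)
    (h : ∀ᵐ x ∂ν, |r x| ≤ C) : LInf.fn (ofr r hr C h) =ᵐ[ν] fun x => ((r x : ℝ) : ℂ) :=
  LInf.fn_mk _ _

/-- real elements -/
def IsRl {ν : Measure X} (f : LInf ν) : Prop := ∀ᵐ x ∂ν, (LInf.fn f x).im = 0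

/-- real part -/
noncomputable def reL {ν : Measure X} (f : LInf ν) : LInf ν :=
  LInf.mk (fun x => (((LInf.fn f x).re : ℝ) : ℂ)) (LInf.memLp_of_bound
    (Complex.measurable_ofReal.comp (Complex.measurable_re.comp
      (LInf.measurable_fn f))).aestronglyMeasurable ‖f‖ (by
      filter_upwards [LInf.ae_norm_le f] with x hx
      rw [Complex.norm_real]
      exact (Complex.abs_re_le_norm _).trans hx))

/-- imaginary part -/
noncomputable def imL {ν : Measure X} (f : LInf ν) : LInf ν :=
  LInf.mk (fun x => (((LInf.fn f x).im : ℝ) : ℂ)) (LInf.memLp_of_bound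
    (Complex.measurable_ofReal.comp (Complex.measurable_im.comp
      (LInf.measurable_fn f))).aestronglyMeasurable ‖f‖ (by
      filter_upwards [LInf.ae_norm_le f] with x hx
      rw [Complex.norm_real]
      exact (Complex.abs_im_le_norm _).trans hx))

lemma fn_reL {ν : Measure X} (f : LInf ν) :
    LInf.fn (reL f) =ᵐ[ν] fun x => (((LInf.fn f x).re : ℝ) : ℂ) := LInf.fn_mk _ _

lemma fn_imL {ν : Measure X} (f : LInf ν) :
    LInf.fn (imL f) =ᵐ[ν] fun x => (((LInf.fn f x).im : ℝ) : ℂ) := LInf.fn_mk _ _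

lemma isRl_reL {ν : Measure X} (f : LInf ν) : IsRl (reL f) := by
  filter_upwards [fn_reL f] with x hx
  rw [hx, Complex.ofReal_im]

lemma isRl_imL {ν : Measure X} (f : LInf ν) : IsRl (imL f) := by
  filter_upwards [fn_imL f] with x hx
  rw [hx, Complex.ofReal_im]

lemma re_add_im' {ν : Measure X} (f : LInf ν) : f = reL f + Complex.I • imL f := by
  apply LInf.ext
  filter_upwards [LInf.fn_add (reL f) (Complex.I • imL f), LInf.fn_smul Complex.I (imL f),
    fn_reL f, fn_imL f] with x a b c d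
  rw [a, b, c, d, mul_comm]
  exact (Complex.re_add_im _).symm

lemma rl_unique {ν : Measure X} {f g f' g' : LInf ν} (hf : IsRl f) (hg : IsRl g) (hf' : IsRl f')
    (hg' : IsRl g') (h : f + Complex.I • g = f' + Complex.I • g') : f = f' ∧ g = g' := by
  have h1 : ∀ᵐ x ∂ν, LInf.fn f x + Complex.I * LInf.fn g x = LInf.fn f' x + Complex.I * LInf.fn g' x := by
    have e : LInf.fn (f + Complex.I • g) = LInf.fn (f' + Complex.I • g') := by rw [h]
    filter_upwards [LInf.fn_add f (Complex.I • g), LInf.fn_smul Complex.I g,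
      LInf.fn_add f' (Complex.I • g'), LInf.fn_smul Complex.I g'] with x a b c d
    rw [← b, ← d, ← a, ← c, e]
  constructor
  · apply LInf.ext
    filter_upwards [h1, hf, hg, hf', hg'] with x a b c d e
    have h2 := congrArg Complex.re a
    simp only [Complex.add_re, Complex.mul_re, Complex.I_re, Complex.I_im, zero_mul, one_mul,
      zero_sub] at h2
    rw [c, e] at h2
    apply Complex.ext
    · linarith
    · rw [b, d]
  · apply LInf.ext
    filter_upwards [h1, hf, hg, hf', hg'] with x a b c d e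
    have h2 := congrArg Complex.im a
    simp only [Complex.add_im, Complex.mul_im, Complex.I_re, Complex.I_im, zero_mul, one_mul,
      zero_add] at h2
    rw [b, d] at h2
    apply Complex.ext
    · linarith
    · rw [c, e]

/-- **The complex operator `T`.** -/
theorem exists_T (S : Setting J lam1 w₀ W) :
    ∃ T : LInf (kap μ W) →L[ℂ] LInf (kap μ W), IsCompactOperator T ∧
      ∀ (f : LInf (kap μ W)) (v : H), IsRl f → IsRep J lam1 W (fre f) v →
        LInf.fn (T f) =ᵐ[kap μ W] fun x => ((J v x / W x : ℝ) : ℂ) := by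
  obtain ⟨Tr, hTrc, hTr⟩ := exists_Tr S
  set T0 : LInf (kap μ W) → LInf (kap μ W) := fun f => Tr f + Complex.I • Tr ((-Complex.I) • f) with hT0
  have hadd : ∀ f g, T0 (f + g) = T0 f + T0 g := by
    intro f g
    simp only [hT0, smul_add, map_add]
    abel
  have hreal : ∀ (r : ℝ) (f), T0 ((r : ℂ) • f) = (r : ℂ) • T0 f := by
    intro r f
    have e1 : ∀ g : LInf (kap μ W), (r : ℂ) • g = r • g := fun g => rfl
    simp only [hT0]
    rw [smul_comm (-Complex.I) (r : ℂ) f, e1, e1, map_smul, map_smul, ← e1, ← e1,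
      smul_add, smul_comm (r : ℂ) Complex.I]
  have hI : ∀ f, T0 (Complex.I • f) = Complex.I • T0 f := by
    intro f
    simp only [hT0]
    have e1 : (-Complex.I) • Complex.I • f = f := by
      rw [smul_smul]
      simp
    have e2 : Tr ((-Complex.I) • f) = - Tr (Complex.I • f) := by
      rw [neg_smul, map_neg]
    rw [e1, e2, smul_add, smul_smul, smul_neg]
    simp only [Complex.I_mul_I, neg_smul, one_smul, neg_neg]
    abel
  have hsmul : ∀ (c : ℂ) (f), T0 (c • f) = c • T0 f := by
    intro c f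
    have e1 : c • f = (c.re : ℂ) • f + (c.im : ℂ) • (Complex.I • f) := by
      rw [smul_smul, ← add_smul, Complex.re_add_im]
    rw [e1, hadd, hreal, hreal, hI, smul_smul, ← add_smul, Complex.re_add_im]
  let Tl : LInf (kap μ W) →ₗ[ℂ] LInf (kap μ W) :=
    { toFun := T0
      map_add' := hadd
      map_smul' := hsmul }
  have hcont : Continuous T0 := by
    simp only [hT0]
    exact Tr.continuous.add ((Tr.continuous.comp (continuous_const_smul (-Complex.I))).const_smul
      Complex.I)
  let T : LInf (kap μ W) →L[ℂ] LInf (kap μ W) := ⟨Tl, hcont⟩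
  refine ⟨T, ?_, ?_⟩
  · have h1 : IsCompactOperator (fun f => Tr ((-Complex.I) • f)) := by
      let mI : LInf (kap μ W) →L[ℂ] LInf (kap μ W) := (-Complex.I) • ContinuousLinearMap.id ℂ _
      exact hTrc.comp_clm mI
    exact hTrc.add (h1.smul Complex.I)
  · intro f v hf hv
    have h1 := hTr f v hv
    have h2 : IsRep J lam1 W (fre ((-Complex.I) • f)) (0 : H) := by
      intro φ
      rw [inner_zero_left]
      have : ∫ x, W x ^ (q - 1) * fre ((-Complex.I) • f) x * J φ x ∂μ = 0 := by
        apply integral_eq_zero_of_ae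
        have h3 : ∀ᵐ x ∂μ, 0 < W x → fre ((-Complex.I) • f) x = 0 := by
          rw [← S.ae_kap]
          filter_upwards [LInf.fn_smul (-Complex.I) f, hf] with x a b
          simp only [fre]
          rw [a]
          simp [b]
        filter_upwards [h3] with x hx
        simp only [Pi.zero_apply]
        rcases eq_or_lt_of_le (S.hw.nonneg x) with h0 | h0
        · rw [← h0, Real.zero_rpow (by linarith [S.hq])]
          simp
        · rw [hx h0]
          simp
      rw [this, mul_zero]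
    have h3 := hTr _ _ h2
    have h4 : ∀ᵐ x ∂(kap μ W), J (0:H) x = 0 := by
      rw [map_zero]
      exact ae_restrict_of_ae (Lp.coeFn_zero ℝ _ μ)
    filter_upwards [LInf.fn_add (Tr f) (Complex.I • Tr ((-Complex.I) • f)),
      LInf.fn_smul Complex.I (Tr ((-Complex.I) • f)), h1, h3, h4] with x a b c d e
    show LInf.fn (Tr f + Complex.I • Tr ((-Complex.I) • f)) x = _
    rw [a, b, c, d, e]
    simp

end

end Pool.Agent.Hhelper23.LE
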