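import Pool.Agent.Hhelper23.LE.Limit

set_option autoImplicit false
set_option linter.unusedSectionVars false

open Filter Topology MeasureTheory
open scoped InnerProductSpace

namespace Pool.Agent.Hhelper23.LE

section
variable {X : Type} [MeasurableSpace X] {μ : Measure X} {q : ℝ}
variable [Fact (1 ≤ ENNReal.ofReal q)] {H : Type} [NormedAddCommGroup H] [InnerProductSpace ℝ H]
  [CompleteSpace H] {J : H →L[ℝ] Lp ℝ (ENNReal.ofReal q) μ}

/-- `v` represents the functional `φ ↦ lam1 ∫ W^(q-1) f Jφ`. -/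
def IsRep (J : H →L[ℝ] Lp ℝ (ENNReal.ofReal q) μ) (lam1 : ℝ) (W : X → ℝ) (f : X → ℝ) (v : H) : Prop :=
  ∀ φ : H, ⟪v, φ⟫_ℝ = lam1 * ∫ x, W x ^ (q - 1) * f x * J φ x ∂μ

lemma integrable_wf (hq : 2 < q) {lam1 : ℝ} {w₀ : H} {W : X → ℝ} (hw : IsSol J lam1 w₀ W)
    {f : X → ℝ} (hf : Measurable f) {M : ℝ} (hM : ∀ᵐ x ∂μ, 0 < W x → |f x| ≤ M) {s : X → ℝ}
    (hsm : Measurable s) (hs : MemLp s (ENNReal.ofReal q) μ) :
    Integrable (fun x => W x ^ (q - 1) * f x * s x) μ := by
  have h1 := (holder_weight hq hw.memLp hs.norm hw.nonneg (fun x => norm_nonneg _)).1.const_mul M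
  refine h1.mono (((hw.meas.pow_const (q - 1)).mul hf).mul hsm).aestronglyMeasurable ?_
  filter_upwards [hM] with x hx
  rcases eq_or_lt_of_le (hw.nonneg x) with h | h
  · rw [← h, Real.zero_rpow (by linarith)]
    simp
  · have hM0 : 0 ≤ M := (abs_nonneg _).trans (hx h)
    rw [norm_mul, norm_mul, norm_mul, norm_mul, norm_norm, Real.norm_of_nonneg hM0,
      Real.norm_eq_abs (f x)]
    calc ‖W x ^ (q - 1)‖ * |f x| * ‖s x‖ ≤ ‖W x ^ (q - 1)‖ * M * ‖s x‖ := by
          gcongr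
          exact hx h
      _ = M * (‖W x ^ (q - 1)‖ * ‖s x‖) := by ring

lemma rep_exists (hq : 2 < q) {lam1 : ℝ} (hlam1 : 0 < lam1) {w₀ : H} {W : X → ℝ}
    (hw : IsSol J lam1 w₀ W) {f : X → ℝ} (hf : Measurable f) {M : ℝ}
    (hM : ∀ᵐ x ∂μ, 0 < W x → |f x| ≤ M) (hM0 : 0 ≤ M) :
    ∃ v : H, IsRep J lam1 W f v ∧ ‖v‖ ≤ lam1 * M * ‖J‖ := by
  have hq0 : 0 < q := by linarith
  have hint : ∀ φ : H, Integrable (fun x => W x ^ (q - 1) * f x * J φ x) μ := fun φ =>
    integrable_wf hq hw hf hM (meas_J (J := J) φ) (Lp.memLp (J φ))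
  let ℓ : H →ₗ[ℝ] ℝ :=
    { toFun := fun φ => lam1 * ∫ x, W x ^ (q - 1) * f x * J φ x ∂μ
      map_add' := fun φ ψ => by
        rw [← mul_add, ← integral_add (hint φ) (hint ψ)]
        congr 1
        refine integral_congr_ae ?_
        rw [map_add]
        filter_upwards [Lp.coeFn_add (J φ) (J ψ)] with x hx
        rw [hx, Pi.add_apply]
        ring
      map_smul' := fun r φ => by
        simp only [RingHom.id_apply, smul_eq_mul]
        rw [← mul_assoc, mul_comm r lam1, mul_assoc, ← integral_const_mul r]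
        congr 1
        refine integral_congr_ae ?_
        rw [map_smul]
        filter_upwards [Lp.coeFn_smul r (J φ)] with x hx
        rw [hx, Pi.smul_apply, smul_eq_mul]
        ring }
  have hbound : ∀ φ, ‖ℓ φ‖ ≤ (lam1 * M * ‖J‖) * ‖φ‖ := by
    intro φ
    show ‖lam1 * ∫ x, W x ^ (q - 1) * f x * J φ x ∂μ‖ ≤ _
    rw [norm_mul, Real.norm_of_nonneg hlam1.le]
    have k := holder_weight hq hw.memLp (Lp.memLp (J φ)).norm hw.nonneg (fun x => norm_nonneg _)
    have h1 : ‖∫ x, W x ^ (q - 1) * f x * J φ x ∂μ‖ ≤ M * ‖J φ‖ := by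
      calc ‖∫ x, W x ^ (q - 1) * f x * J φ x ∂μ‖ ≤ ∫ x, ‖W x ^ (q - 1) * f x * J φ x‖ ∂μ :=
            norm_integral_le_integral_norm _
        _ ≤ ∫ x, M * (W x ^ (q - 1) * ‖J φ x‖) ∂μ := by
            refine integral_mono_ae (hint φ).norm (k.1.const_mul M) ?_
            filter_upwards [hM] with x hx
            rcases eq_or_lt_of_le (hw.nonneg x) with h | h
            · rw [← h, Real.zero_rpow (by linarith)]
              simp
            · rw [norm_mul, norm_mul, Real.norm_eq_abs (f x),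
                Real.norm_of_nonneg (Real.rpow_nonneg (hw.nonneg x) _)]
              have := Real.rpow_nonneg (hw.nonneg x) (q - 1)
              calc W x ^ (q - 1) * |f x| * ‖J φ x‖ ≤ W x ^ (q - 1) * M * ‖J φ x‖ := by
                    gcongr
                    exact hx h
                _ = M * (W x ^ (q - 1) * ‖J φ x‖) := by ring
        _ = M * ∫ x, W x ^ (q - 1) * ‖J φ x‖ ∂μ := integral_const_mul _ _
        _ ≤ M * ((∫ x, W x ^ q ∂μ) ^ ((q - 1) / q) * (∫ x, ‖J φ x‖ ^ q ∂μ) ^ (1 / q)) :=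
            mul_le_mul_of_nonneg_left k.2 hM0
        _ = M * ‖J φ‖ := by
            rw [hw.int_one, Real.one_rpow, one_mul, norm_Lp_eq hq0]
            rfl
    calc lam1 * ‖∫ x, W x ^ (q - 1) * f x * J φ x ∂μ‖ ≤ lam1 * (M * ‖J φ‖) :=
          mul_le_mul_of_nonneg_left h1 hlam1.le
      _ ≤ lam1 * (M * (‖J‖ * ‖φ‖)) := by
          gcongr
          exact J.le_opNorm φ
      _ = _ := by ring
  let ℓc : H →L[ℝ] ℝ := ℓ.mkContinuous _ hbound
  refine ⟨(InnerProductSpace.toDual ℝ H).symm ℓc, fun φ => ?_, ?_⟩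
  · rw [InnerProductSpace.toDual_symm_apply]
    rfl
  · rw [LinearIsometryEquiv.norm_map]
    exact ℓ.mkContinuous_norm_le (by positivity) hbound

lemma IsRep.comb (hq : 2 < q) {lam1 : ℝ} {w₀ : H} {W : X → ℝ}
    (hw : IsSol J lam1 w₀ W) {f : X → ℝ} (hf : Measurable f) {M : ℝ}
    (hM : ∀ᵐ x ∂μ, 0 < W x → |f x| ≤ M) {v : H} (hv : IsRep J lam1 W f v) (k : ℝ) :
    (∀ φ : H, ⟪v - k • w₀, φ⟫_ℝ = ∫ x, (lam1 * (W x ^ (q - 1) * (f x - k))) * J φ x ∂μ) ∧
    (J (v - k • w₀) =ᵐ[μ] fun x => J v x - k * W x) := by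
  constructor
  · intro φ
    rw [inner_sub_left, real_inner_smul_left, hv φ, hw.eqn]
    have h1 := integrable_wf hq hw hf hM (meas_J (J := J) φ) (Lp.memLp (J φ))
    have h2 := integrable_pow_mul_J (J := J) hq hw.memLp hw.nonneg φ
    have e : ∀ x, (lam1 * (W x ^ (q - 1) * (f x - k))) * J φ x =
        lam1 * (W x ^ (q - 1) * f x * J φ x) - (k * lam1) * (W x ^ (q - 1) * J φ x) :=
      fun x => by ring
    simp only [e]
    rw [integral_sub (h1.const_mul _) (h2.const_mul _), integral_const_mul, integral_const_mul]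
    ring
  · rw [map_sub, map_smul]
    filter_upwards [Lp.coeFn_sub (J v) (k • J w₀), Lp.coeFn_smul k (J w₀), hw.ae_eq]
      with x e1 e2 e3
    rw [e1, Pi.sub_apply, e2, Pi.smul_apply, e3]
    rfl

lemma IsRep.upper (hq : 2 < q) (hpos : PosProp J) {lam1 : ℝ} (hlam1 : 0 < lam1)
    (hlam : ∀ v : H, lam1 * ‖J v‖ ^ 2 ≤ ‖v‖ ^ 2) {w₀ : H} {W : X → ℝ}
    (hw : IsSol J lam1 w₀ W) {f : X → ℝ} (hf : Measurable f) {M : ℝ}
    (hM : ∀ᵐ x ∂μ, 0 < W x → |f x| ≤ M) {v : H} (hv : IsRep J lam1 W f v) :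
    ∀ᵐ x ∂μ, J v x ≤ M * W x := by
  have hq0 : 0 < q := by linarith
  obtain ⟨h1, h2⟩ := hv.comb hq hw hf hM M
  have h3 := pos_test hq hpos hlam h1 h2
  have h4 : ∫ x, (lam1 * (W x ^ (q - 1) * (f x - M))) * max (J v x - M * W x) 0 ∂μ ≤ 0 := by
    refine integral_nonpos_of_ae ?_
    filter_upwards [hM] with x hx
    simp only [Pi.zero_apply]
    apply mul_nonpos_of_nonpos_of_nonneg _ (le_max_right _ _)
    apply mul_nonpos_of_nonneg_of_nonpos hlam1.le
    rcases eq_or_lt_of_le (hw.nonneg x) with h | h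
    · rw [← h, Real.zero_rpow (by linarith), zero_mul]
    · apply mul_nonpos_of_nonneg_of_nonpos (Real.rpow_nonneg (hw.nonneg x) _)
      have := (le_abs_self (f x)).trans (hx h)
      linarith
  set I : ℝ := ∫ x, (max (J v x - M * W x) 0) ^ q ∂μ with hI
  have hI0 : 0 ≤ I := integral_nonneg fun x => Real.rpow_nonneg (le_max_right _ _) _
  have hI1 : I = 0 := by
    by_contra hne
    have hpos' : 0 < I := lt_of_le_of_ne hI0 (Ne.symm hne)
    have : 0 < lam1 * I ^ (2 / q) := mul_pos hlam1 (Real.rpow_pos_of_pos hpos' _)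
    linarith
  have hL : MemLp (fun x => J v x - M * W x) (ENNReal.ofReal q) μ :=
    (Lp.memLp (J v)).sub (hw.memLp.const_mul M)
  have h5 := (integral_eq_zero_iff_of_nonneg
      (fun x => Real.rpow_nonneg (le_max_right (J v x - M * W x) 0) q)
      (integrable_rpow_of_memLp hq0 (memLp_posPart hL) fun x => le_max_right _ _)).1 hI1
  filter_upwards [h5] with x hx
  have h6 := (Real.rpow_eq_zero (le_max_right (J v x - M * W x) 0) hq0.ne').1 hx
  have h7 : J v x - M * W x ≤ 0 := by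
    rw [← h6]
    exact le_max_left _ _
  linarith

lemma IsRep.neg {lam1 : ℝ} {W f : X → ℝ} {v : H} (hv : IsRep J lam1 W f v) :
    IsRep J lam1 W (fun x => - f x) (-v) := by
  intro φ
  rw [inner_neg_left, hv φ, ← mul_neg, ← integral_neg]
  congr 1
  refine integral_congr_ae (Eventually.of_forall fun x => ?_)
  simp only
  ring

lemma IsRep.bdd (hq : 2 < q) (hpos : PosProp J) {lam1 : ℝ} (hlam1 : 0 < lam1)
    (hlam : ∀ v : H, lam1 * ‖J v‖ ^ 2 ≤ ‖v‖ ^ 2) {w₀ : H} {W : X → ℝ}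
    (hw : IsSol J lam1 w₀ W) {f : X → ℝ} (hf : Measurable f) {M : ℝ}
    (hM : ∀ᵐ x ∂μ, 0 < W x → |f x| ≤ M) {v : H} (hv : IsRep J lam1 W f v) :
    ∀ᵐ x ∂μ, |J v x| ≤ M * W x := by
  have h1 := hv.upper hq hpos hlam1 hlam hw hf hM
  have h2 := hv.neg.upper hq hpos hlam1 hlam hw hf.neg (M := M) (by
    filter_upwards [hM] with x hx h
    simp only [Pi.neg_apply, abs_neg]
    exact hx h)
  have h3 : J (-v) =ᵐ[μ] fun x => - J v x := by
    rw [map_neg]
    exact Lp.coeFn_neg (J v)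
  filter_upwards [h1, h2, h3] with x e1 e2 e3
  rw [e3] at e2
  exact abs_le.2 ⟨by linarith, e1⟩

lemma rep_small (hq : 2 < q) (hpos : PosProp J) {lam1 : ℝ} (hlam1 : 0 < lam1)
    (hlam : ∀ v : H, lam1 * ‖J v‖ ^ 2 ≤ ‖v‖ ^ 2) {w₀ : H} {W : X → ℝ}
    (hw : IsSol J lam1 w₀ W) {M : ℝ} (hM0 : 0 ≤ M) {η : ℝ} (hη : 0 < η) :
    ∃ δ > 0, ∀ (f : X → ℝ) (v : H), Measurable f → (∀ᵐ x ∂μ, 0 < W x → |f x| ≤ M) →
      IsRep J lam1 W f v → ‖J v‖ ≤ δ → ∀ᵐ x ∂μ, |J v x| ≤ η * W x := by
  have hq0 : 0 < q := by linarith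
  obtain ⟨δ, hδ, hdg⟩ := degiorgi q M η hq hM0 hη
  have main : ∀ (f : X → ℝ) (v : H), Measurable f → (∀ᵐ x ∂μ, 0 < W x → |f x| ≤ M) →
      IsRep J lam1 W f v → ‖J v‖ ≤ δ ^ (1 / q) → ∀ᵐ x ∂μ, J v x ≤ η * W x := by
    intro f v hf hM hv hsmall
    refine hdg X μ W (J v) hw.meas (meas_J v) hw.nonneg hw.memLp (Lp.memLp _) ?_ ?_
    · intro k hk
      obtain ⟨h1, h2⟩ := hv.comb hq hw hf hM k
      have h3 := pos_test hq hpos hlam h1 h2
      have hsL : MemLp (fun x => max (J v x - k * W x) 0) (ENNReal.ofReal q) μ :=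
        memLp_posPart ((Lp.memLp (J v)).sub (hw.memLp.const_mul k))
      have hsm : Measurable (fun x => max (J v x - k * W x) 0) :=
        ((meas_J v).sub (hw.meas.const_mul k)).max measurable_const
      have hi1 := (holder_weight hq hw.memLp hsL hw.nonneg fun x => le_max_right _ _).1
      have hi2 := integrable_wf hq hw hf hM hsm hsL
      have h4 : ∫ x, (lam1 * (W x ^ (q - 1) * (f x - k))) * max (J v x - k * W x) 0 ∂μ ≤
          lam1 * (M * ∫ x, W x ^ (q - 1) * max (J v x - k * W x) 0 ∂μ) := by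
        rw [← integral_const_mul, ← integral_const_mul]
        refine integral_mono_ae ?_ ((hi1.const_mul M).const_mul lam1) ?_
        · have e : (fun x => (lam1 * (W x ^ (q - 1) * (f x - k))) * max (J v x - k * W x) 0) =
            fun x => lam1 * (W x ^ (q - 1) * f x * max (J v x - k * W x) 0) -
              (k * lam1) * (W x ^ (q - 1) * max (J v x - k * W x) 0) := by
            funext x; ring
          rw [e]
          exact (hi2.const_mul _).sub (hi1.const_mul _)
        · filter_upwards [hM] with x hx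
          rcases eq_or_lt_of_le (hw.nonneg x) with h | h
          · rw [← h, Real.zero_rpow (by linarith)]
            simp
          · have a1 : 0 ≤ W x ^ (q - 1) * max (J v x - k * W x) 0 :=
              mul_nonneg (Real.rpow_nonneg (hw.nonneg x) _) (le_max_right _ _)
            have a2 : f x - k ≤ M := by
              have := (le_abs_self (f x)).trans (hx h)
              have := hk.1
              linarith
            calc (lam1 * (W x ^ (q - 1) * (f x - k))) * max (J v x - k * W x) 0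
                = lam1 * ((f x - k) * (W x ^ (q - 1) * max (J v x - k * W x) 0)) := by ring
              _ ≤ lam1 * (M * (W x ^ (q - 1) * max (J v x - k * W x) 0)) := by
                  gcongr
      exact le_of_mul_le_mul_left (h3.trans h4) hlam1
    · have h5 : ∫ x, (max (J v x) 0) ^ q ∂μ ≤ ∫ x, |J v x| ^ q ∂μ := by
        refine integral_mono (integrable_rpow_of_memLp hq0 (memLp_posPart (Lp.memLp (J v)))
          fun x => le_max_right _ _) (integrable_rpow_of_memLp hq0 (Lp.memLp (J v)).norm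
          fun x => abs_nonneg _) fun x => ?_
        simp only
        apply Real.rpow_le_rpow (le_max_right _ _) _ hq0.le
        exact max_le (le_abs_self _) (abs_nonneg _)
      refine h5.trans ?_
      rw [← norm_Lp_rpow hq0]
      have h6 : ‖J v‖ ^ q ≤ (δ ^ (1 / q)) ^ q := Real.rpow_le_rpow (norm_nonneg _) hsmall hq0.le
      rwa [← Real.rpow_mul hδ.le, one_div_mul_cancel hq0.ne', Real.rpow_one] at h6
  refine ⟨δ ^ (1 / q), Real.rpow_pos_of_pos hδ _, fun f v hf hM hv hsmall => ?_⟩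
  have h1 := main f v hf hM hv hsmall
  have h2 := main (fun x => - f x) (-v) hf.neg (by
    filter_upwards [hM] with x hx h
    rw [abs_neg]
    exact hx h) hv.neg (by rw [map_neg, norm_neg]; exact hsmall)
  have h3 : J (-v) =ᵐ[μ] fun x => - J v x := by
    rw [map_neg]
    exact Lp.coeFn_neg (J v)
  filter_upwards [h1, h2, h3] with x e1 e2 e3
  rw [e3] at e2
  exact abs_le.2 ⟨by linarith, e1⟩

end

end Pool.Agent.Hhelper23.LE
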