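import Pool.Agent.Hhelper23.LE.DG

set_option autoImplicit false
set_option linter.unusedSectionVars false

open Filter Topology MeasureTheory
open scoped InnerProductSpace

namespace Pool.Agent.Hhelper23.LE

section
variable {X : Type} [MeasurableSpace X] {μ : Measure X} {q : ℝ}

lemma norm_Lp_eq (hq : 0 < q) (f : Lp ℝ (ENNReal.ofReal q) μ) :
    ‖f‖ = (∫ x, |f x| ^ q ∂μ) ^ (1 / q) := by
  have h := Lp.memLp f
  rw [Lp.norm_def, h.eLpNorm_eq_integral_rpow_norm (by simpa using hq) ENNReal.ofReal_ne_top,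
    ENNReal.toReal_ofReal hq.le, ENNReal.toReal_ofReal, one_div]
  · rfl
  · exact Real.rpow_nonneg (integral_nonneg fun x => Real.rpow_nonneg (norm_nonneg _) _) _

lemma norm_Lp_rpow (hq : 0 < q) (f : Lp ℝ (ENNReal.ofReal q) μ) :
    ‖f‖ ^ q = ∫ x, |f x| ^ q ∂μ := by
  rw [norm_Lp_eq hq, ← Real.rpow_mul (integral_nonneg fun x => Real.rpow_nonneg (abs_nonneg _) _),
    one_div_mul_cancel hq.ne', Real.rpow_one]

/-- difference of powers -/
lemma rpow_sub_le {p a b : ℝ} (hp : 1 ≤ p) (ha : 0 ≤ a) (hb : 0 ≤ b) :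
    |a ^ p - b ^ p| ≤ p * |a - b| * (a + b) ^ (p - 1) := by
  wlog hab : b ≤ a with H
  · have := H hp hb ha (le_of_lt (not_le.1 hab))
    rw [abs_sub_comm, abs_sub_comm b a, add_comm b a] at this
    exact this
  rcases eq_or_lt_of_le ha with h0 | h0
  · have : b = 0 := by linarith
    subst this
    rw [← h0]
    simp
  have h1 : 1 + p * (b / a - 1) ≤ (1 + (b / a - 1)) ^ p :=
    one_add_mul_self_le_rpow_one_add (by
      have : 0 ≤ b / a := by positivity
      linarith) hp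
  have h2 : 1 + (b / a - 1) = b / a := by ring
  rw [h2, Real.div_rpow hb ha] at h1
  have hap : 0 < a ^ p := Real.rpow_pos_of_pos h0 _
  have hap' : a ^ p = a ^ (p - 1) * a := by
    rw [← Real.rpow_add_one h0.ne', sub_add_cancel]
  have h3 : a ^ p - b ^ p ≤ p * (a - b) * a ^ (p - 1) := by
    rw [le_div_iff₀ hap] at h1
    have : (1 + p * (b / a - 1)) * a ^ p = a ^ p - p * (a - b) * a ^ (p - 1) := by
      rw [hap']
      field_simp
      ring
    linarith
  have h4 : b ^ p ≤ a ^ p := Real.rpow_le_rpow hb hab (by linarith)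
  rw [abs_of_nonneg (by linarith), abs_of_nonneg (by linarith)]
  refine h3.trans ?_
  apply mul_le_mul_of_nonneg_left _ (mul_nonneg (by linarith) (by linarith))
  exact Real.rpow_le_rpow ha (by linarith) (by linarith)

/-- `M^(q-2) t ≤ M^(q-1) + t^(q-1)` -/
lemma young_simple {M t : ℝ} (hq : 2 < q) (hM : 0 ≤ M) (ht : 0 ≤ t) :
    M ^ (q - 1 - 1) * t ≤ M ^ (q - 1) + t ^ (q - 1) := by
  rcases le_total M t with h | h
  · have h1 : M ^ (q - 1 - 1) * t ≤ t ^ (q - 1 - 1) * t :=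
      mul_le_mul_of_nonneg_right (Real.rpow_le_rpow hM h (by linarith)) ht
    have h2 : t ^ (q - 1 - 1) * t = t ^ (q - 1) := by
      rcases eq_or_lt_of_le ht with h0 | h0
      · rw [← h0, mul_zero, Real.zero_rpow (by linarith)]
      · rw [← Real.rpow_add_one h0.ne', sub_add_cancel]
    have h3 : 0 ≤ M ^ (q - 1) := Real.rpow_nonneg hM _
    linarith
  · have h1 : M ^ (q - 1 - 1) * t ≤ M ^ (q - 1 - 1) * M :=
      mul_le_mul_of_nonneg_left h (Real.rpow_nonneg hM _)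
    have h2 : M ^ (q - 1 - 1) * M = M ^ (q - 1) := by
      rcases eq_or_lt_of_le hM with h0 | h0
      · rw [← h0, mul_zero, Real.zero_rpow (by linarith)]
      · rw [← Real.rpow_add_one h0.ne', sub_add_cancel]
    have h3 : 0 ≤ t ^ (q - 1) := Real.rpow_nonneg ht _
    linarith

variable [Fact (1 ≤ ENNReal.ofReal q)] {H : Type} [NormedAddCommGroup H] [InnerProductSpace ℝ H]
  [CompleteSpace H] (J : H →L[ℝ] Lp ℝ (ENNReal.ofReal q) μ)

/-- the lattice property of the space -/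
def PosProp : Prop := ∀ v : H, ∃ v' : H, (J v' =ᵐ[μ] fun x => max (J v x) 0) ∧ ‖v'‖ ^ 2 ≤ ⟪v, v'⟫_ℝ

variable {J}

lemma meas_J (v : H) : Measurable (J v : X → ℝ) := (Lp.stronglyMeasurable (J v)).measurable

lemma pos_test (hq : 2 < q) (hpos : PosProp J) {lam : ℝ} (hlam : ∀ v : H, lam * ‖J v‖ ^ 2 ≤ ‖v‖ ^ 2)
    {v : H} {F : X → ℝ} (hv : ∀ φ : H, ⟪v, φ⟫_ℝ = ∫ x, F x * J φ x ∂μ) {g : X → ℝ}
    (hg : J v =ᵐ[μ] g) :
    lam * (∫ x, (max (g x) 0) ^ q ∂μ) ^ (2 / q) ≤ ∫ x, F x * max (g x) 0 ∂μ := by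
  have hq0 : 0 < q := by linarith
  obtain ⟨v', hv'1, hv'2⟩ := hpos v
  have hv'1 : J v' =ᵐ[μ] fun x => max (g x) 0 := by
    filter_upwards [hv'1, hg] with x h1 h2
    rw [h1, h2]
  have h1 : ⟪v, v'⟫_ℝ = ∫ x, F x * max (g x) 0 ∂μ := by
    rw [hv v']
    refine integral_congr_ae ?_
    filter_upwards [hv'1] with x hx
    rw [hx]
  have h2 : ‖J v'‖ ^ 2 = (∫ x, (max (g x) 0) ^ q ∂μ) ^ (2 / q) := by
    have h3 : ∫ x, |J v' x| ^ q ∂μ = ∫ x, (max (g x) 0) ^ q ∂μ := by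
      refine integral_congr_ae ?_
      filter_upwards [hv'1] with x hx
      rw [hx, abs_of_nonneg (le_max_right _ _)]
    rw [norm_Lp_eq hq0, h3, ← Real.rpow_natCast, ← Real.rpow_mul
      (integral_nonneg fun x => Real.rpow_nonneg (le_max_right _ _) _)]
    congr 1
    push_cast
    ring
  rw [← h2, ← h1]
  exact (hlam v').trans hv'2

/-- `u` is a normalised nonnegative solution with representative `U`. -/
structure IsSol (J : H →L[ℝ] Lp ℝ (ENNReal.ofReal q) μ) (lam : ℝ) (u : H) (U : X → ℝ) : Prop where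
  meas : Measurable U
  nonneg : ∀ x, 0 ≤ U x
  ae_eq : J u =ᵐ[μ] U
  int_one : ∫ x, U x ^ q ∂μ = 1
  eqn : ∀ φ : H, ⟪u, φ⟫_ℝ = lam * ∫ x, U x ^ (q - 1) * J φ x ∂μ

lemma IsSol.memLp {lam : ℝ} {u : H} {U : X → ℝ} (h : IsSol J lam u U) :
    MemLp U (ENNReal.ofReal q) μ := (memLp_congr_ae h.ae_eq).1 (Lp.memLp (J u))

lemma integrable_pow_mul_J (hq : 2 < q) {V : X → ℝ} (hV : MemLp V (ENNReal.ofReal q) μ)
    (hV0 : ∀ x, 0 ≤ V x) (φ : H) : Integrable (fun x => V x ^ (q - 1) * J φ x) μ := by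
  have h1 := (holder_weight hq hV (Lp.memLp (J φ)).norm hV0 (fun x => norm_nonneg _)).1
  have h2 : AEStronglyMeasurable (fun x => V x ^ (q - 1) * J φ x) μ :=
    ((hV.1.aemeasurable.pow_const (q - 1)).aestronglyMeasurable).mul (Lp.memLp (J φ)).1
  refine h1.mono h2 (Eventually.of_forall fun x => ?_)
  rw [norm_mul, norm_mul, norm_norm]

end

end Pool.Agent.Hhelper23.LE
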