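import Pool.Agent.Hhelper23.LE.Oper
import Pool.Agent.Hhelper23.LE.AL

set_option autoImplicit false
set_option linter.unusedSectionVars false

open Filter Topology MeasureTheory
open scoped InnerProductSpace ENNReal

namespace Pool.Agent.Hhelper23.LE

section
variable {X : Type} [MeasurableSpace X] {μ : Measure X} {q : ℝ}
variable [Fact (1 ≤ ENNReal.ofReal q)] {H : Type} [NormedAddCommGroup H] [InnerProductSpace ℝ H]
  [CompleteSpace H] {J : H →L[ℝ] Lp ℝ (ENNReal.ofReal q) μ} {lam1 : ℝ} {w₀ : H} {W : X → ℝ}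

lemma Setting.integrable_W (S : Setting J lam1 w₀ W) : Integrable (fun x => W x ^ q) μ :=
  integrable_rpow_of_memLp (by linarith [S.hq]) S.hw.memLp S.hw.nonneg

lemma Setting.integrable_fW (S : Setting J lam1 w₀ W) (f : LInf (kap μ W)) :
    Integrable (fun x => LInf.fn f x * ((W x ^ q : ℝ) : ℂ)) (kap μ W) := by
  have h1 : Integrable (fun x => ((W x ^ q : ℝ) : ℂ)) (kap μ W) :=
    (S.integrable_W.restrict).ofReal
  exact h1.bdd_mul (LInf.measurable_fn f).aestronglyMeasurable (LInf.ae_norm_le f)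

lemma Setting.int_kap_W (S : Setting J lam1 w₀ W) : ∫ x, W x ^ q ∂(kap μ W) = 1 := by
  rw [← S.hw.int_one]
  apply setIntegral_eq_integral_of_forall_compl_eq_zero
  intro x hx
  have h0 : W x = 0 := le_antisymm (not_lt.1 hx) (S.hw.nonneg x)
  rw [h0, Real.zero_rpow (by linarith [S.hq])]

/-- integration against `W^q` -/
noncomputable def Setting.tau (S : Setting J lam1 w₀ W) : LInf (kap μ W) →L[ℂ] ℂ :=
  LinearMap.mkContinuous
    { toFun := fun f => ∫ x, LInf.fn f x * ((W x ^ q : ℝ) : ℂ) ∂(kap μ W)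
      map_add' := fun f g => by
        rw [← integral_add (S.integrable_fW f) (S.integrable_fW g)]
        refine integral_congr_ae ?_
        filter_upwards [LInf.fn_add f g] with x hx
        rw [hx, add_mul]
      map_smul' := fun c f => by
        rw [RingHom.id_apply, smul_eq_mul, ← integral_const_mul]
        refine integral_congr_ae ?_
        filter_upwards [LInf.fn_smul c f] with x hx
        rw [hx, mul_assoc] } 1 (fun f => by
      show ‖∫ x, LInf.fn f x * ((W x ^ q : ℝ) : ℂ) ∂(kap μ W)‖ ≤ 1 * ‖f‖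
      calc ‖∫ x, LInf.fn f x * ((W x ^ q : ℝ) : ℂ) ∂(kap μ W)‖
          ≤ ∫ x, ‖LInf.fn f x * ((W x ^ q : ℝ) : ℂ)‖ ∂(kap μ W) := norm_integral_le_integral_norm _
        _ ≤ ∫ x, ‖f‖ * W x ^ q ∂(kap μ W) := by
            refine integral_mono_ae (S.integrable_fW f).norm
              (S.integrable_W.restrict.const_mul _) ?_
            filter_upwards [LInf.ae_norm_le f] with x hx
            rw [norm_mul, Complex.norm_real,
              Real.norm_of_nonneg (Real.rpow_nonneg (S.hw.nonneg x) _)]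
            exact mul_le_mul_of_nonneg_right hx (Real.rpow_nonneg (S.hw.nonneg x) _)
        _ = 1 * ‖f‖ := by rw [integral_const_mul, S.int_kap_W, mul_one, one_mul])

lemma Setting.tau_apply (S : Setting J lam1 w₀ W) (f : LInf (kap μ W)) :
    S.tau f = ∫ x, LInf.fn f x * ((W x ^ q : ℝ) : ℂ) ∂(kap μ W) := rfl

/-- the operator together with its defining property -/
def Setting.IsT (_S : Setting J lam1 w₀ W) (T : LInf (kap μ W) →L[ℂ] LInf (kap μ W)) : Prop :=
  ∀ (f : LInf (kap μ W)) (v : H), IsRl f → IsRep J lam1 W (fre f) v →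
        LInf.fn (T f) =ᵐ[kap μ W] fun x => ((J v x / W x : ℝ) : ℂ)

lemma Setting.exists_rep (S : Setting J lam1 w₀ W) (f : LInf (kap μ W)) :
    ∃ v : H, IsRep J lam1 W (fre f) v := by
  obtain ⟨v, hv, _⟩ := rep_exists S.hq S.hlam1 S.hw (measurable_fre f) (S.fre_bound f) (norm_nonneg _)
  exact ⟨v, hv⟩

lemma Setting.isRl_T (S : Setting J lam1 w₀ W) {T : LInf (kap μ W) →L[ℂ] LInf (kap μ W)}
    (hT : S.IsT T) {f : LInf (kap μ W)} (hf : IsRl f) : IsRl (T f) := by
  obtain ⟨v, hv⟩ := S.exists_rep f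
  filter_upwards [hT f v hf hv] with x hx
  rw [hx, Complex.ofReal_im]

lemma Setting.tau_T_mul (S : Setting J lam1 w₀ W) {T : LInf (kap μ W) →L[ℂ] LInf (kap μ W)}
    (hT : S.IsT T) {f g : LInf (kap μ W)} (hf : IsRl f) (hg : IsRl g) {v w : H}
    (hv : IsRep J lam1 W (fre f) v) (hw : IsRep J lam1 W (fre g) w) :
    S.tau (T f * g) = ((lam1⁻¹ * ⟪w, v⟫_ℝ : ℝ) : ℂ) := by
  have hq := S.hq
  have h1 : lam1⁻¹ * ⟪w, v⟫_ℝ = ∫ x, W x ^ (q - 1) * fre g x * J v x ∂μ := by
    rw [hw v, ← mul_assoc, inv_mul_cancel₀ S.hlam1.ne', one_mul]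
  have h2 : ∫ x, W x ^ (q - 1) * fre g x * J v x ∂μ =
      ∫ x, W x ^ (q - 1) * fre g x * J v x ∂(kap μ W) := by
    symm
    apply setIntegral_eq_integral_of_forall_compl_eq_zero
    intro x hx
    have h0 : W x = 0 := le_antisymm (not_lt.1 hx) (S.hw.nonneg x)
    rw [h0, Real.zero_rpow (by linarith)]
    simp
  rw [h1, h2, S.tau_apply, ← integral_complex_ofReal]
  refine integral_congr_ae ?_
  filter_upwards [LInf.fn_mul (T f) g, hT f v hf hv, hg, S.ae_pos] with x a b c d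
  rw [a, b]
  have e1 : LInf.fn g x = ((fre g x : ℝ) : ℂ) := by
    apply Complex.ext
    · rw [Complex.ofReal_re]; rfl
    · rw [Complex.ofReal_im, c]
  have e2 : W x ^ q = W x ^ (q - 1) * W x := by
    rw [← Real.rpow_add_one d.ne', sub_add_cancel]
  rw [e1, ← Complex.ofReal_mul, ← Complex.ofReal_mul, e2]
  congr 1
  field_simp

lemma Setting.sym_real (S : Setting J lam1 w₀ W) {T : LInf (kap μ W) →L[ℂ] LInf (kap μ W)}
    (hT : S.IsT T) {f g : LInf (kap μ W)} (hf : IsRl f) (hg : IsRl g) :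
    S.tau (T f * g) = S.tau (f * T g) := by
  obtain ⟨v, hv⟩ := S.exists_rep f
  obtain ⟨w, hw⟩ := S.exists_rep g
  rw [S.tau_T_mul hT hf hg hv hw, mul_comm f (T g), S.tau_T_mul hT hg hf hw hv, real_inner_comm]

lemma Setting.sym (S : Setting J lam1 w₀ W) {T : LInf (kap μ W) →L[ℂ] LInf (kap μ W)}
    (hT : S.IsT T) (f g : LInf (kap μ W)) : S.tau (T f * g) = S.tau (f * T g) := by
  have h : ∀ f₁ f₂ g₁ g₂ : LInf (kap μ W), IsRl f₁ → IsRl f₂ → IsRl g₁ → IsRl g₂ →
      S.tau (T (f₁ + Complex.I • f₂) * (g₁ + Complex.I • g₂)) =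
      S.tau ((f₁ + Complex.I • f₂) * T (g₁ + Complex.I • g₂)) := by
    intro f₁ f₂ g₁ g₂ h1 h2 h3 h4
    simp only [map_add, map_smul, add_mul, mul_add, smul_mul_assoc, mul_smul_comm]
    rw [S.sym_real hT h1 h3, S.sym_real hT h1 h4, S.sym_real hT h2 h3, S.sym_real hT h2 h4]
  have := h (reL f) (imL f) (reL g) (imL g) (isRl_reL f) (isRl_imL f) (isRl_reL g) (isRl_imL g)
  rwa [← re_add_im', ← re_add_im'] at this

lemma Setting.T_one (S : Setting J lam1 w₀ W) {T : LInf (kap μ W) →L[ℂ] LInf (kap μ W)}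
    (hT : S.IsT T) : T 1 = 1 := by
  have h1 : IsRl (1 : LInf (kap μ W)) := by
    filter_upwards [LInf.fn_one (μ := kap μ W)] with x hx
    rw [hx, Complex.one_im]
  have h2 : IsRep J lam1 W (fun _ => (1:ℝ)) w₀ := by
    intro φ
    rw [S.hw.eqn φ]
    simp
  have h3 : IsRep J lam1 W (fre (1 : LInf (kap μ W))) w₀ := by
    refine isRep_congr S.hq S.hw.nonneg ?_ h2
    rw [← S.ae_kap]
    filter_upwards [LInf.fn_one (μ := kap μ W)] with x hx
    simp only [fre]
    rw [hx, Complex.one_re]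
  apply LInf.ext
  have h4 : ∀ᵐ x ∂(kap μ W), J w₀ x = W x := ae_restrict_of_ae S.hw.ae_eq
  filter_upwards [hT 1 w₀ h1 h3, LInf.fn_one (μ := kap μ W), h4, S.ae_pos] with x a b c d
  rw [a, b, c, div_self d.ne', Complex.ofReal_one]

lemma Setting.kernel_range (S : Setting J lam1 w₀ W) {T : LInf (kap μ W) →L[ℂ] LInf (kap μ W)}
    (hT : S.IsT T) (a : ℝ) (k y : LInf (kap μ W)) (hk : T k = (a : ℂ) • k)
    (hy : k = (a : ℂ) • y - T y) : k = 0 := by
  have hreal : ∀ (f : LInf (kap μ W)), IsRl f → IsRl ((a : ℂ) • f) := by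
    intro f hf
    filter_upwards [LInf.fn_smul (a : ℂ) f, hf] with x b c
    rw [b, Complex.im_ofReal_mul, c, mul_zero]
  set k₁ := reL k with hk₁
  set k₂ := imL k with hk₂
  have hkk : k = k₁ + Complex.I • k₂ := re_add_im' k
  have h1 : T k₁ + Complex.I • T k₂ = (a : ℂ) • k₁ + Complex.I • ((a : ℂ) • k₂) := by
    have h2 := hk
    rw [hkk, map_add, map_smul, smul_add] at h2
    rw [h2, smul_comm]
  obtain ⟨e1, e2⟩ := rl_unique (S.isRl_T hT (isRl_reL k)) (S.isRl_T hT (isRl_imL k))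
    (hreal _ (isRl_reL k)) (hreal _ (isRl_imL k)) h1
  set kc := k₁ - Complex.I • k₂ with hkc
  have hkc' : T kc = (a : ℂ) • kc := by
    rw [hkc, map_sub, map_smul, e1, e2, smul_sub, smul_comm]
  have h3 : S.tau (k * kc) = 0 := by
    have h4 : k * kc = (a : ℂ) • (y * kc) - T y * kc := by
      conv_lhs => rw [hy]
      rw [sub_mul, smul_mul_assoc]
    rw [h4, map_sub, map_smul, S.sym hT, hkc', mul_smul_comm, map_smul, sub_self]
  have h5 : LInf.fn (k * kc) =ᵐ[kap μ W] fun x => ((‖LInf.fn k x‖ ^ 2 : ℝ) : ℂ) := by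
    filter_upwards [LInf.fn_mul k kc, LInf.fn_sub k₁ (Complex.I • k₂),
      LInf.fn_smul Complex.I k₂, fn_reL k, fn_imL k] with x b c d e f
    rw [b, c, d, e, f]
    have h6 : ((LInf.fn k x).re : ℂ) - Complex.I * ((LInf.fn k x).im : ℂ) =
        (starRingEnd ℂ) (LInf.fn k x) := by
      apply Complex.ext <;> simp
    rw [h6, Complex.mul_conj, Complex.normSq_eq_norm_sq]
  rw [S.tau_apply] at h3
  have h6 : ∫ x, (‖LInf.fn k x‖ ^ 2 * W x ^ q) ∂(kap μ W) = 0 := by
    have h7 : ((∫ x, (‖LInf.fn k x‖ ^ 2 * W x ^ q) ∂(kap μ W) : ℝ) : ℂ) = 0 := by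
      rw [← integral_complex_ofReal, ← h3]
      refine integral_congr_ae ?_
      filter_upwards [h5] with x hx
      rw [hx]
      push_cast
      ring
    exact_mod_cast h7
  have h8 : Integrable (fun x => ‖LInf.fn k x‖ ^ 2 * W x ^ q) (kap μ W) := by
    have h9 : Integrable (fun x => W x ^ q) (kap μ W) := S.integrable_W.restrict
    refine h9.bdd_mul ((LInf.measurable_fn k).norm.pow_const 2).aestronglyMeasurable
      (c := ‖k‖ ^ 2) ?_
    filter_upwards [LInf.ae_norm_le k] with x hx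
    rw [norm_pow, norm_norm]
    exact pow_le_pow_left₀ (norm_nonneg _) hx 2
  have h10 := (integral_eq_zero_iff_of_nonneg (fun x => mul_nonneg (sq_nonneg _)
    (Real.rpow_nonneg (S.hw.nonneg x) _)) h8).1 h6
  apply LInf.ext
  filter_upwards [h10, S.ae_pos, LInf.fn_zero (μ := kap μ W)] with x b c d
  rw [d]
  have h11 : 0 < W x ^ q := Real.rpow_pos_of_pos c _
  have h12 := (mul_eq_zero.1 b).resolve_right h11.ne'
  exact norm_eq_zero.1 (pow_eq_zero_iff (two_ne_zero) |>.1 h12)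

end

end Pool.Agent.Hhelper23.LE
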