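import Pool.Agent.Hhelper23.LE.Abs

set_option autoImplicit false
set_option linter.unusedSectionVars false

open Filter Topology MeasureTheory
open scoped InnerProductSpace

namespace Pool.Agent.Hhelper23.LE

/-- smooth approximation of the positive part -/
noncomputable def Ftr (ε t : ℝ) : ℝ := (Real.sqrt (t ^ 2 + ε ^ 2) - ε + t) / 2

lemma Ftr_zero {ε : ℝ} (hε : 0 < ε) : Ftr ε 0 = 0 := by
  rw [Ftr]
  simp [Real.sqrt_sq hε.le]

lemma contDiff_Ftr {ε : ℝ} (hε : 0 < ε) : ContDiff ℝ (⊤ : ℕ∞) (Ftr ε) := by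
  have h1 : ContDiff ℝ (⊤ : ℕ∞) (fun t : ℝ => t ^ 2 + ε ^ 2) := by fun_prop
  have h2 : ContDiff ℝ (⊤ : ℕ∞) (fun t : ℝ => Real.sqrt (t ^ 2 + ε ^ 2)) := by
    apply h1.sqrt
    intro t
    positivity
  exact ((h2.sub contDiff_const).add contDiff_id).div_const 2

lemma hasDerivAt_Ftr {ε : ℝ} (hε : 0 < ε) (t : ℝ) :
    HasDerivAt (Ftr ε) ((t / Real.sqrt (t ^ 2 + ε ^ 2) + 1) / 2) t := by
  have h1 : HasDerivAt (fun t : ℝ => t ^ 2 + ε ^ 2) (2 * t) t := by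
    have := (hasDerivAt_pow 2 t).add_const (ε ^ 2)
    simpa using this
  have h2 := h1.sqrt (by positivity)
  have h3 := ((h2.sub_const ε).add (hasDerivAt_id t)).div_const 2
  refine h3.congr_deriv ?_
  have : Real.sqrt (t ^ 2 + ε ^ 2) ≠ 0 := (Real.sqrt_pos.2 (by positivity)).ne'
  field_simp

lemma deriv_Ftr_mem {ε : ℝ} (hε : 0 < ε) (t : ℝ) :
    0 ≤ (t / Real.sqrt (t ^ 2 + ε ^ 2) + 1) / 2 ∧ (t / Real.sqrt (t ^ 2 + ε ^ 2) + 1) / 2 ≤ 1 := by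
  have h0 : 0 < Real.sqrt (t ^ 2 + ε ^ 2) := Real.sqrt_pos.2 (by positivity)
  have h1 : |t| ≤ Real.sqrt (t ^ 2 + ε ^ 2) := by
    rw [← Real.sqrt_sq_eq_abs]
    exact Real.sqrt_le_sqrt (by nlinarith [sq_nonneg ε])
  have h2 := abs_le.1 h1
  constructor
  · have : -1 ≤ t / Real.sqrt (t ^ 2 + ε ^ 2) := by
      rw [le_div_iff₀ h0]
      linarith
    linarith
  · have : t / Real.sqrt (t ^ 2 + ε ^ 2) ≤ 1 := by
      rw [div_le_one h0]
      exact h2.2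
    linarith

lemma abs_Ftr_sub {ε : ℝ} (hε : 0 < ε) (t : ℝ) : |Ftr ε t - max t 0| ≤ ε := by
  have h1 : |t| ≤ Real.sqrt (t ^ 2 + ε ^ 2) := by
    rw [← Real.sqrt_sq_eq_abs]
    exact Real.sqrt_le_sqrt (by nlinarith [sq_nonneg ε])
  have h2 : Real.sqrt (t ^ 2 + ε ^ 2) ≤ |t| + ε := by
    apply Real.sqrt_le_iff.2
    refine ⟨by positivity, ?_⟩
    have := sq_abs t
    nlinarith [abs_nonneg t]
  have h3 : max t 0 = (|t| + t) / 2 := by
    rcases le_total t 0 with h | h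
    · rw [max_eq_right h, abs_of_nonpos h]; ring
    · rw [max_eq_left h, abs_of_nonneg h]; ring
  rw [Ftr, h3, abs_le]
  constructor <;> linarith

section
variable {X : Type} [MeasurableSpace X] {μ : Measure X} {q : ℝ}
variable [Fact (1 ≤ ENNReal.ofReal q)] {H : Type} [NormedAddCommGroup H] [InnerProductSpace ℝ H]
  [CompleteSpace H] {J : H →L[ℝ] Lp ℝ (ENNReal.ofReal q) μ}

lemma pos_limit (hJ : IsCompactOperator J) {v v' : ℕ → H} {v0 : H}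
    (hv : Tendsto v atTop (𝓝 v0)) (hv' : ∀ n, ‖v' n‖ ^ 2 ≤ ⟪v n, v' n⟫_ℝ)
    {g : Lp ℝ (ENNReal.ofReal q) μ} (hg : Tendsto (fun n => J (v' n)) atTop (𝓝 g)) :
    ∃ w : H, J w = g ∧ ‖w‖ ^ 2 ≤ ⟪v0, w⟫_ℝ := by
  obtain ⟨R, hR⟩ : ∃ R, ∀ n, ‖v n‖ ≤ R := by
    obtain ⟨R, hR⟩ := hv.norm.bddAbove_range
    exact ⟨R, fun n => hR ⟨n, rfl⟩⟩
  have hle : ∀ n, ‖v' n‖ ≤ ‖v n‖ := by
    intro n
    have h1 := (hv' n).trans (real_inner_le_norm _ _)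
    rcases eq_or_lt_of_le (norm_nonneg (v' n)) with h | h
    · rw [← h]; exact norm_nonneg _
    · have : ‖v' n‖ * ‖v' n‖ ≤ ‖v n‖ * ‖v' n‖ := by rw [← pow_two]; exact h1
      exact le_of_mul_le_mul_right this h
  set 𝒰 : Ultrafilter ℕ := hyperfilter ℕ with h𝒰
  have h𝒰le : (𝒰 : Filter ℕ) ≤ atTop := by
    rw [← Nat.cofinite_eq_atTop]
    exact hyperfilter_le_cofinite
  obtain ⟨w, hw⟩ := exists_weak_limit 𝒰 v' (fun n => (hle n).trans (hR n))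
  have hJw := compact_limit 𝒰 v' (fun n => (hle n).trans (hR n)) hJ hw
  refine ⟨w, tendsto_nhds_unique hJw (hg.mono_left h𝒰le), ?_⟩
  have h1 : Tendsto (fun n => ⟪v n, v' n⟫_ℝ) 𝒰 (𝓝 ⟪v0, w⟫_ℝ) := by
    have h2 : Tendsto (fun n => ⟪v n - v0, v' n⟫_ℝ) 𝒰 (𝓝 0) := by
      have h3 : Tendsto (fun n => ‖v n - v0‖ * R) 𝒰 (𝓝 0) := by
        have := ((tendsto_iff_norm_sub_tendsto_zero.1 hv).mul_const R).mono_left h𝒰le
        rwa [zero_mul] at this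
      refine squeeze_zero_norm (fun n => ?_) h3
      refine (abs_real_inner_le_norm _ _).trans ?_
      exact mul_le_mul_of_nonneg_left ((hle n).trans (hR n)) (norm_nonneg _)
    have h4 : Tendsto (fun n => ⟪v0, v' n⟫_ℝ) 𝒰 (𝓝 ⟪v0, w⟫_ℝ) := by
      have := hw v0
      simp only [real_inner_comm v0] at this
      exact this
    have h5 := h2.add h4
    rw [zero_add] at h5
    refine h5.congr fun n => ?_
    rw [inner_sub_left]
    ring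
  have h2 : Tendsto (fun n => ⟪v n, v' n⟫_ℝ - 2 * ⟪v' n, w⟫_ℝ + ‖w‖ ^ 2) 𝒰
      (𝓝 (⟪v0, w⟫_ℝ - 2 * ⟪w, w⟫_ℝ + ‖w‖ ^ 2)) :=
    (h1.sub ((hw w).const_mul 2)).add_const _
  have h3 : 0 ≤ ⟪v0, w⟫_ℝ - 2 * ⟪w, w⟫_ℝ + ‖w‖ ^ 2 := by
    refine ge_of_tendsto h2 (Eventually.of_forall fun n => ?_)
    have h4 : ‖v' n - w‖ ^ 2 = ‖v' n‖ ^ 2 - 2 * ⟪v' n, w⟫_ℝ + ‖w‖ ^ 2 := norm_sub_sq_real _ _
    have h5 := hv' n
    have h6 := sq_nonneg ‖v' n - w‖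
    linarith
  rw [real_inner_self_eq_norm_sq] at h3
  linarith

/-- the lattice property passes to the closure of a dense set -/
lemma posProp_of_dense (hJ : IsCompactOperator J) {D : Type} (i : D → H) (hi : DenseRange i)
    (hD : ∀ φ : D, ∃ v' : H, (J v' =ᵐ[μ] fun x => max (J (i φ) x) 0) ∧ ‖v'‖ ^ 2 ≤ ⟪i φ, v'⟫_ℝ) :
    PosProp J := by
  intro v0
  obtain ⟨s, hs, hst⟩ : ∃ s : ℕ → H, (∀ n, s n ∈ Set.range i) ∧ Tendsto s atTop (𝓝 v0) :=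
    mem_closure_iff_seq_limit.1 (hi v0)
  choose φ hφ using hs
  choose v' hv'1 hv'2 using fun n => hD (φ n)
  have hpp : ∀ n, J (v' n) = Lp.posPart (J (s n)) := by
    intro n
    apply Lp.ext
    filter_upwards [hv'1 n, Lp.coeFn_posPart (J (s n))] with x a b
    rw [a, b, hφ]
  have hg : Tendsto (fun n => J (v' n)) atTop (𝓝 (Lp.posPart (J v0))) := by
    simp only [hpp]
    exact (Lp.continuous_posPart.tendsto (J v0)).comp ((J.continuous.tendsto v0).comp hst)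
  obtain ⟨w, hw1, hw2⟩ := pos_limit hJ hst (v' := v') (fun n => by
    have := hv'2 n
    rwa [hφ] at this) hg
  refine ⟨w, ?_, hw2⟩
  rw [hw1]
  exact Lp.coeFn_posPart (J v0)

end

end Pool.Agent.Hhelper23.LE
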